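import Pool.Agent.helper62.RP.Defs

/-!
# Quantum unique ergodicity for new eigenfunctions of a sequence of covers: the notions of the theorem
-/

open scoped MatrixGroups ContDiff Topology UpperHalfPlane
open UpperHalfPlane MeasureTheory Filter Set
open Pool.Agent.QU

namespace Pool.Agent.RP

/-- There are `b_n → ∞` such that all new eigenfunctions with eigenvalue in `[0, b_n]` of the cover
of degree `N n` of `M = Γ \ ℍ` given by `σ n` are asymptotically equidistributed over `M`. -/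
def NewQUE (Γ : Subgroup SL(2, ℝ)) (N : ℕ → ℕ) (σ : ∀ n, Γ →* Equiv.Perm (Fin (N n))) : Prop :=
  ∃ b : ℕ → ℝ, Tendsto b atTop atTop ∧ ∀ h : ℍ → ℝ, IsTest Γ h → ∀ ε : ℝ, 0 < ε →
    ∀ᶠ n in atTop, ∀ (μ : ℝ) (φ : ℍ → Fin (N n) → ℂ), 0 ≤ μ → μ ≤ b n →
      IsNewEigenfunction (σ n) μ φ → Equidist Γ h (fun z => ∑ i, ‖φ z i‖ ^ 2) ε

end Pool.Agent.RP
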