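import Pool.Agent.helper62.RP.Spec
import Pool.Agent.helper62.RP.HDefs
import Pool.Agent.helper62.QU.Fin

set_option autoImplicit false

open scoped MatrixGroups ContDiff Topology UpperHalfPlane
open UpperHalfPlane MeasureTheory Filter Set
open Pool.Agent.QU

namespace Pool.Agent.RP

theorem FIN_countable (g : ℕ) : Countable (SurfGrp g) := by
  have hs : Function.Surjective (QuotientGroup.mk' (Subgroup.normalClosure {surfRel g})) :=
    QuotientGroup.mk'_surjective _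
  exact hs.countable

/-- every surface group has transitive permutation representations of every degree which converge
strongly on the vectors of sum zero -/
theorem FIN_surf (hSCH : SCH_stmt) (hSCF : SCF_stmt) (hDBL : DBL_stmt) (hSG2 : SG2_stmt)
    (hSGE : SGE_stmt) (hTRA : TRA_stmt) (hSGF : SGF_stmt) (hDIA : DIA_stmt)
    (Γ : Type) [Group Γ] (g : ℕ) (hg : 2 ≤ g) (e : Γ ≃* SurfGrp g) :
    ∃ σ : ∀ n : ℕ, Γ →* Equiv.Perm (Fin n), (∀ n i j, ∃ γ, σ n γ i = j) ∧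
      StrongLimPerm (fun n => n) σ := by
  obtain ⟨j, ψ, h1, h2, h3⟩ := hSG2
  have hS2 : SC (SurfGrp 2) := hDBL (SurfGrp 2) j ψ h1 h2 h3 hSCF
  obtain ⟨Θ, hΘ⟩ := hSGE g hg
  have hS : SC Γ := hSCH (SurfGrp 2) Γ (Θ.comp e.toMonoidHom)
    (hΘ.comp e.injective) hS2
  obtain ⟨⟨s, hs⟩, ht⟩ := hSGF g hg
  haveI := FIN_countable g
  haveI : Countable Γ := e.injective.countable
  obtain ⟨a, ε, hε, ha⟩ := hTRA Γ (e.symm.toMonoidHom.comp s) (e.symm.injective.comp hs)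
  obtain ⟨σ, hσ1, hσ2⟩ := hDIA Γ hS ⟨a, ε, hε, ha⟩ (fun N => by
    obtain ⟨τ, hτ⟩ := ht N
    refine ⟨τ.comp e.toMonoidHom, fun i j => ?_⟩
    obtain ⟨γ, hγ⟩ := hτ i j
    exact ⟨e.symm γ, by simpa using hγ⟩)
  exact ⟨σ, hσ2, hσ1⟩

end Pool.Agent.RP
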