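import Pool.Agent.helper62.RP.All
import Pool.Agent.helper62.RP.Fin

set_option autoImplicit false

/-!
# Strong convergence of random permutations and of surface groups; quantum unique ergodicity
-/

open scoped MatrixGroups ContDiff Topology UpperHalfPlane
open UpperHalfPlane MeasureTheory Filter Set
open Pool.Agent.QU

namespace Pool.Agent.RP

/-- **Strong convergence of random permutations** (Bordenave, Collins; scalar coefficients): for `a` in
the group algebra of the free group `F2` and uniform `σ₀, σ₁` in the symmetric group `S_N`, the norm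
of `a` on the vectors of sum zero is `≤ regNorm a + ε` with probability `→ 1`. -/
theorem strong_convergence_random_permutations (a : MonoidAlgebra ℂ F2) (ε δ : ℝ) (hε : 0 < ε)
    (hδ : 0 < δ) :
    ∀ᶠ N : ℕ in atTop, ((bad N a (regNorm a + ε)).card : ℝ) ≤ δ * (N.factorial : ℝ) ^ 2 :=
  A_SCG a ε δ hε hδ

/-- the expected number of fixed points of a word is a rational function of `1/N` -/
theorem expected_fixed_points (ℓ : ℕ) (w : F2) (hw : w ≠ 1) (hℓ : w.norm ≤ ℓ) :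
    ∃ P : Polynomial ℝ, P.natDegree ≤ 2 * ℓ ∧
      (∀ N : ℕ, ℓ ≤ N → Ew N w * (gl ℓ).eval (1 / (N : ℝ)) = P.eval (1 / (N : ℝ))) ∧
      P.eval 0 = dv ℓ w :=
  A_EXP ℓ w hw hℓ

/-- **Haagerup inequality** -/
theorem haagerup (f : MonoidAlgebra ℂ F2) (ℓ : ℕ) (hf : ∀ s ∈ f.coeff.support, s.norm ≤ ℓ) :
    regNorm f ≤ ((ℓ : ℝ) + 1) ^ 2 * l2 f :=
  A_HAA f ℓ hf

/-- **Strong convergence for surface groups** (Louder, Magee): transitive permutation
representations of every degree which converge strongly on the vectors of sum zero. -/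
theorem strong_convergence_surface_groups (Γ : Type) [Group Γ] (g : ℕ) (hg : 2 ≤ g)
    (e : Γ ≃* SurfGrp g) :
    ∃ σ : ∀ n : ℕ, Γ →* Equiv.Perm (Fin n), (∀ n i j, ∃ γ, σ n γ i = j) ∧
      StrongLimPerm (fun n => n) σ :=
  FIN_surf A_SCH A_SCF A_DBL A_SG2 A_SGE A_TRA A_SGF A_DIA Γ g hg e

/-- quantum unique ergodicity for strongly convergent flat bundles and covers, and existence of
such covers in every degree -/
theorem TOP_all (Γ : Subgroup SL(2, ℝ)) (hΓ : SurfaceGroup Γ) :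
    (∀ g : ℕ, 2 ≤ g → Nonempty (Γ ≃* SurfGrp g) →
      ∃ σ : ∀ n : ℕ, Γ →* Equiv.Perm (Fin n), (∀ n i j, ∃ γ, σ n γ i = j) ∧
        StrongLimPerm (fun n => n) σ ∧ NewQUE Γ (fun n => n) σ) ∧
    (∀ (N : ℕ → ℕ) (σ : ∀ n, Γ →* Equiv.Perm (Fin (N n))), StrongLimPerm N σ → NewQUE Γ N σ) ∧
    ∀ (V : ℕ → Type) [∀ n, NormedAddCommGroup (V n)] [∀ n, InnerProductSpace ℂ (V n)]
      [∀ n, CompleteSpace (V n)] (ρ : ∀ n, Γ →* (V n ≃ₗᵢ[ℂ] V n)), StrongLim V ρ →
      ∃ b : ℕ → ℝ, Tendsto b atTop atTop ∧ ∀ h : ℍ → ℝ, IsTest Γ h → ∀ ε : ℝ, 0 < ε →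
        ∀ᶠ n in atTop, ∀ (μ : ℝ) (φ : ℍ → V n), 0 ≤ μ → μ ≤ b n → IsEigensection (ρ n) μ φ →
          Equidist Γ h (fun z => ‖φ z‖ ^ 2) ε := by
  obtain ⟨hV, hP⟩ := FIN_all Γ hΓ
  refine ⟨fun g hg ⟨e⟩ => ?_, fun N σ hσ => hP N σ hσ, hV⟩
  obtain ⟨σ, h1, h2⟩ := strong_convergence_surface_groups Γ g hg e
  exact ⟨σ, h1, h2, hP (fun n => n) σ h2⟩

end Pool.Agent.RP
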