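import Pool.Agent.helper62.RP.Spec

set_option autoImplicit false

open Polynomial Filter
open Pool.Agent.QU

namespace Pool.Agent.RP

/-- `γ` is the value of a list of total norm `≤ n` -/
def DBL_len {G : Type} [Group G] (j : Bool → F2 →* G) (γ : G) (n : ℕ) : Prop :=
  ∃ l : List (Bool × F2), (l.map (fun s => j s.1 s.2)).prod = γ ∧
    (l.map (fun s => s.2.norm)).sum ≤ n

section

variable {G : Type} [Group G] {j : Bool → F2 →* G}

theorem DBL_mul {γ δ : G} {n m : ℕ} (h1 : DBL_len j γ n) (h2 : DBL_len j δ m) :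
    DBL_len j (γ * δ) (n + m) := by
  obtain ⟨l, rfl, hl⟩ := h1
  obtain ⟨k, rfl, hk⟩ := h2
  refine ⟨l ++ k, by simp, ?_⟩
  rw [List.map_append, List.sum_append]
  omega

theorem DBL_one : DBL_len j (1 : G) 0 := ⟨[], by simp, by simp⟩

theorem DBL_mono {γ : G} {n m : ℕ} (h : DBL_len j γ n) (hnm : n ≤ m) : DBL_len j γ m := by
  obtain ⟨l, hl, hl'⟩ := h
  exact ⟨l, hl, hl'.trans hnm⟩

theorem DBL_inv {γ : G} {n : ℕ} (h : DBL_len j γ n) : DBL_len j γ⁻¹ n := by
  obtain ⟨l, rfl, hl⟩ := h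
  refine ⟨(l.map (fun s => (s.1, s.2⁻¹))).reverse, ?_, ?_⟩
  · rw [List.prod_inv_reverse, List.map_reverse, List.map_map, List.map_map]
    congr 2
    refine List.map_congr_left fun s _ => ?_
    simp
  · rw [List.map_reverse, List.sum_reverse, List.map_map]
    refine le_trans (le_of_eq ?_) hl
    congr 1
    refine List.map_congr_left fun s _ => ?_
    simp [FreeGroup.norm_inv_eq]

theorem DBL_ex (hcl : Subgroup.closure (Set.range (j false) ∪ Set.range (j true)) = ⊤) (γ : G) :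
    ∃ n, DBL_len j γ n := by
  have hmem : γ ∈ Subgroup.closure (Set.range (j false) ∪ Set.range (j true)) := by
    rw [hcl]; trivial
  induction hmem using Subgroup.closure_induction with
  | mem x hx =>
    rcases hx with ⟨y, rfl⟩ | ⟨y, rfl⟩
    · exact ⟨y.norm, [(false, y)], by simp, by simp⟩
    · exact ⟨y.norm, [(true, y)], by simp, by simp⟩
  | one => exact ⟨0, DBL_one⟩
  | mul x y _ _ hx hy =>
    obtain ⟨n, hn⟩ := hx
    obtain ⟨m, hm⟩ := hy
    exact ⟨n + m, DBL_mul hn hm⟩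
  | inv x _ hx =>
    obtain ⟨n, hn⟩ := hx
    exact ⟨n, DBL_inv hn⟩

theorem DBL_w0 (h : ℕ) : (w0 ^ h).norm ≤ 4 * h := by
  have h4 : w0.norm ≤ 4 := by
    unfold w0
    refine (FreeGroup.norm_mul_le _ _).trans ?_
    refine (Nat.add_le_add_right ((FreeGroup.norm_mul_le _ _).trans
      (Nat.add_le_add_right (FreeGroup.norm_mul_le _ _) _)) _).trans ?_
    simp [FreeGroup.norm_inv_eq, FreeGroup.norm_of]
  induction h with
  | zero => simp
  | succ h ih =>
    rw [pow_succ]
    refine (FreeGroup.norm_mul_le _ _).trans ?_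
    omega

theorem DBL_cw (h : ℕ) (s : Bool) (y : F2) : (cw h s y).norm ≤ (8 * h + 1) * y.norm := by
  by_cases hy : y = 1
  · subst hy
    unfold cw
    split_ifs <;> simp
  · have h1 : 1 ≤ y.norm := by
      rcases Nat.eq_zero_or_pos y.norm with h0 | h0
      · exact absurd (FreeGroup.norm_eq_zero.mp h0) hy
      · exact h0
    have h0 := DBL_w0 h
    have h2 : (cw h s y).norm ≤ 8 * h + y.norm := by
      unfold cw
      split_ifs
      · refine (FreeGroup.norm_mul_le _ _).trans ?_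
        refine (Nat.add_le_add_right (FreeGroup.norm_mul_le _ _) _).trans ?_
        rw [FreeGroup.norm_inv_eq]
        omega
      · refine (FreeGroup.norm_mul_le _ _).trans ?_
        refine (Nat.add_le_add_right (FreeGroup.norm_mul_le _ _) _).trans ?_
        rw [FreeGroup.norm_inv_eq]
        omega
    refine h2.trans ?_
    nlinarith

theorem DBL_norm {ψ : G →* F2} {h : ℕ} (hψ : ∀ s y, ψ (j s y) = cw h s y) {γ : G} {n : ℕ}
    (hn : DBL_len j γ n) : (ψ γ).norm ≤ (8 * h + 1) * n := by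
  obtain ⟨l, rfl, hl⟩ := hn
  have key : ∀ l : List (Bool × F2), (ψ (l.map (fun s => j s.1 s.2)).prod).norm ≤
      (8 * h + 1) * (l.map (fun s => s.2.norm)).sum := by
    intro l
    induction l with
    | nil => simp
    | cons s l ih =>
      rw [List.map_cons, List.prod_cons, map_mul, hψ, List.map_cons, List.sum_cons, mul_add]
      exact (FreeGroup.norm_mul_le _ _).trans (Nat.add_le_add (DBL_cw h s.1 s.2) ih)
  exact (key l).trans (Nat.mul_le_mul_left _ hl)

theorem DBL_suppadj (a : MonoidAlgebra ℂ G) : ∀ γ ∈ (adj a).coeff.support, γ⁻¹ ∈ a.coeff.support := by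
  classical
  intro γ hγ
  unfold adj at hγ
  rw [MonoidAlgebra.coeff_sum] at hγ
  have := Finsupp.support_finsetSum hγ
  rw [Finset.mem_biUnion] at this
  obtain ⟨δ, hδ, h2⟩ := this
  rw [MonoidAlgebra.coeff_single] at h2
  have h3 := Finsupp.support_single_subset h2
  rw [Finset.mem_singleton] at h3
  rw [h3, inv_inv]
  exact hδ

theorem DBL_suppmul {a b : MonoidAlgebra ℂ G} {n m : ℕ} (ha : ∀ γ ∈ a.coeff.support, DBL_len j γ n)
    (hb : ∀ γ ∈ b.coeff.support, DBL_len j γ m) :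
    ∀ γ ∈ (a * b).coeff.support, DBL_len j γ (n + m) := by
  classical
  intro γ hγ
  have := MonoidAlgebra.support_coeff_mul_subset a b hγ
  obtain ⟨x, hx, y, hy, rfl⟩ := Finset.mem_mul.mp this
  exact DBL_mul (ha x hx) (hb y hy)

theorem DBL_supppow {a : MonoidAlgebra ℂ G} {n : ℕ} (ha : ∀ γ ∈ a.coeff.support, DBL_len j γ n)
    (k : ℕ) : ∀ γ ∈ (a ^ k).coeff.support, DBL_len j γ (k * n) := by
  classical
  induction k with
  | zero =>
    intro γ hγ
    rw [pow_zero] at hγ
    have := MonoidAlgebra.support_coeff_one_subset hγ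
    rw [Finset.mem_one] at this
    rw [this, Nat.zero_mul]
    exact DBL_one
  | succ k ih =>
    intro γ hγ
    rw [pow_succ] at hγ
    rw [Nat.succ_mul]
    exact DBL_suppmul ih ha γ hγ

end

theorem DBL_reg {H : Type} [Group H] (a : MonoidAlgebra ℂ H) : 0 ≤ regNorm a := by
  unfold regNorm
  exact Real.sInf_nonneg fun x hx => hx.1

theorem DBL (h1 : PUS_stmt) (h2 : TRN_stmt) (h3 : INJ_stmt) (h4 : NUM_stmt) : DBL_stmt := by
  intro G _ j ψ hj hψ hcl hF S ε hε
  classical
  -- a common bound for the lengths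
  have hq : ∃ q : ℕ, ∀ a ∈ S, ∀ γ ∈ a.coeff.support, DBL_len j γ q := by
    choose f hf using fun γ : G => DBL_ex hcl γ
    refine ⟨S.sup (fun a => a.coeff.support.sup f), fun a ha γ hγ => DBL_mono (hf γ) ?_⟩
    exact (Finset.le_sup (f := f) hγ).trans
      (Finset.le_sup (f := fun a : MonoidAlgebra ℂ G => a.coeff.support.sup f) ha)
  obtain ⟨q, hq⟩ := hq
  have hev : ∀ᶠ i : ℕ in atTop, ∀ a ∈ S, ∀ x : ℝ, 0 ≤ x →
      x ^ (2 ^ (i + 1)) ≤ ((((8 * (2 ^ i * q + 1) + 1) * (2 ^ (i + 1) * q) : ℕ) : ℝ) + 1) ^ 2 *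
        regNorm a ^ (2 ^ (i + 1)) → x ≤ regNorm a + ε / 2 :=
    (Filter.eventually_all_finset S).2 fun a _ => h4 q (regNorm a) (ε / 2) (DBL_reg a) (by linarith)
  obtain ⟨i, hi⟩ := hev.exists
  set h : ℕ := 2 ^ i * q + 1 with hh
  have hnorm : ∀ a ∈ S, regNorm (push (ψ h) a) ≤ regNorm a + ε / 2 := by
    intro a ha
    have hlen : ∀ γ ∈ ((adj a * a) ^ (2 ^ i)).coeff.support, DBL_len j γ (2 ^ (i + 1) * q) := by
      have hadj : ∀ γ ∈ (adj a).coeff.support, DBL_len j γ q := by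
        intro γ hγ
        have := DBL_inv (hq a ha _ (DBL_suppadj a γ hγ))
        rwa [inv_inv] at this
      have h5 := DBL_supppow (DBL_suppmul hadj (hq a ha)) (2 ^ i)
      intro γ hγ
      refine DBL_mono (h5 γ hγ) (le_of_eq ?_)
      ring
    refine hi a ha _ (DBL_reg _) ?_
    refine h2 G (ψ h) a i ((8 * h + 1) * (2 ^ (i + 1) * q)) ?_ ?_
    · intro γ hγ δ hδ hγδ
      have l1 : DBL_len j (γ⁻¹ * δ) (2 ^ (i + 1) * q + 2 ^ (i + 1) * q) :=
        DBL_mul (DBL_inv (hlen γ hγ)) (hlen δ hδ)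
      obtain ⟨l, hl, hl'⟩ := l1
      have hlt : (l.map (fun s => s.2.norm)).sum < 4 * h := by
        have : 2 ^ (i + 1) * q + 2 ^ (i + 1) * q < 4 * h := by
          rw [hh, pow_succ]
          nlinarith
        omega
      have := h3 G j (ψ h) h hj (hψ h) l hlt (by
        rw [hl, map_mul, map_inv]
        rw [show ψ h γ = ψ h δ from hγδ]
        simp)
      rw [hl] at this
      exact inv_mul_eq_one.mp this
    · intro γ hγ
      exact DBL_norm (hψ h) (hlen γ hγ)
  filter_upwards [hF (S.image (push (ψ h))) (ε / 2) (by linarith)] with N hN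
  obtain ⟨σ, hσ⟩ := hN
  refine ⟨σ.comp (ψ h), fun a ha v hv => ?_⟩
  have h6 := hσ (push (ψ h) a) (Finset.mem_image_of_mem _ ha) v hv
  obtain ⟨-, -, -, -, -, -, hrep, hperm⟩ := h1 G F2 (ψ h) a a
  rw [hperm N σ, hrep (EuclideanSpace ℂ (Fin N)) (permRep σ)]
  refine h6.trans ?_
  refine mul_le_mul_of_nonneg_right ?_ (norm_nonneg _)
  linarith [hnorm a ha]

end Pool.Agent.RP
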