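import Pool.Agent.helper62.RP.Spec

set_option autoImplicit false

open Polynomial Filter
open Pool.Agent.QU

namespace Pool.Agent.RP

theorem INJ (h1 : ALT_stmt) (h2 : RED_stmt) : INJ_stmt := by
  intro G _ j ψ h hj hψ l hl hone
  obtain ⟨l', hprod, hsum, hcase⟩ := h2 G j hj l
  rw [← hprod] at hone ⊢
  rcases hcase with hlen | ⟨hch, hz⟩
  · match l', hlen with
    | [], _ => simp
    | [s], _ =>
      simp only [List.map_cons, List.map_nil, List.prod_cons, List.prod_nil, mul_one] at hone ⊢
      rw [hψ] at hone
      have hy : s.2 = 1 := by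
        unfold cw at hone
        split_ifs at hone
        · rwa [conj_eq_one_iff] at hone
        · have : (w0 ^ h)⁻¹ * s.2 * ((w0 ^ h)⁻¹)⁻¹ = 1 := by rwa [inv_inv]
          rwa [conj_eq_one_iff] at this
      rw [hy, map_one]
    | _ :: _ :: _, hlen => simp at hlen
  · by_cases hnil : l' = []
    · subst hnil; simp
    · exfalso
      refine h1 h l' hnil hch hz ?_ ?_
      · intro s hs
        have : s.2.norm ≤ (l'.map (fun s => s.2.norm)).sum :=
          List.single_le_sum (fun x _ => Nat.zero_le x) _ (List.mem_map.mpr ⟨s, hs, rfl⟩)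
        omega
      · rw [map_list_prod, List.map_map] at hone
        rw [← hone]
        congr 1
        refine List.map_congr_left fun s _ => ?_
        simp [hψ]

end Pool.Agent.RP
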