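import Pool.Agent.helper62.RP.Spec

set_option autoImplicit false

open Polynomial Filter
open Pool.Agent.QU

namespace Pool.Agent.RP

theorem SCF (h1 : SCG_stmt) : SCF_stmt := by
  intro S ε hε
  have hδ : (0 : ℝ) < 1 / (2 * ((S.card : ℝ) + 1)) := by positivity
  have hev : ∀ᶠ N : ℕ in atTop, ∀ a ∈ S, ((bad N a (regNorm a + ε)).card : ℝ) ≤
      1 / (2 * ((S.card : ℝ) + 1)) * (N.factorial : ℝ) ^ 2 :=
    (Filter.eventually_all_finset S).2 fun a _ => h1 a ε _ hε hδ
  filter_upwards [hev] with N hN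
  classical
  by_contra hcon
  push Not at hcon
  have hcov : (Finset.univ : Finset (Fin 2 → Equiv.Perm (Fin N))) ⊆
      S.biUnion (fun a => bad N a (regNorm a + ε)) := by
    intro σ _
    obtain ⟨a, ha, v, hv0, hv⟩ := hcon (FreeGroup.lift σ)
    rw [Finset.mem_biUnion]
    refine ⟨a, ha, ?_⟩
    unfold bad
    refine Finset.mem_filter.mpr ⟨Finset.mem_univ _, v, hv0, hv⟩
  have hcard : (Fintype.card (Fin 2 → Equiv.Perm (Fin N)) : ℝ) = (N.factorial : ℝ) ^ 2 := by
    rw [Fintype.card_fun, Fintype.card_perm, Fintype.card_fin, Fintype.card_fin]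
    push_cast
    rfl
  have hpos : (0 : ℝ) < (N.factorial : ℝ) ^ 2 := by positivity
  have h2 : (N.factorial : ℝ) ^ 2 ≤ ∑ a ∈ S, ((bad N a (regNorm a + ε)).card : ℝ) := by
    rw [← hcard, ← Finset.card_univ]
    exact_mod_cast (Finset.card_le_card hcov).trans Finset.card_biUnion_le
  have h3 : ∑ a ∈ S, ((bad N a (regNorm a + ε)).card : ℝ) ≤
      (S.card : ℝ) * (1 / (2 * ((S.card : ℝ) + 1)) * (N.factorial : ℝ) ^ 2) := by
    refine (Finset.sum_le_sum fun a ha => hN a ha).trans ?_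
    rw [Finset.sum_const, nsmul_eq_mul]
  have h4 : (S.card : ℝ) * (1 / (2 * ((S.card : ℝ) + 1)) * (N.factorial : ℝ) ^ 2) ≤
      (1 / 2) * (N.factorial : ℝ) ^ 2 := by
    have hc : (0 : ℝ) ≤ S.card := Nat.cast_nonneg _
    have : (S.card : ℝ) * (1 / (2 * ((S.card : ℝ) + 1))) ≤ 1 / 2 := by
      rw [mul_one_div, div_le_div_iff₀ (by positivity) (by norm_num)]
      linarith
    calc _ = ((S.card : ℝ) * (1 / (2 * ((S.card : ℝ) + 1)))) * (N.factorial : ℝ) ^ 2 := by ring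
      _ ≤ _ := mul_le_mul_of_nonneg_right this hpos.le
  linarith

end Pool.Agent.RP
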