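import Pool.Agent.helper62.RP.Spec

set_option autoImplicit false

open Polynomial Filter
open Pool.Agent.QU

namespace Pool.Agent.RP

theorem SCG (h1 : RNB_stmt) (h2 : ADJ_stmt) (h3 : REP_stmt) (h4 : SCS_stmt) : SCG_stmt := by
  intro a ε δ hε hδ
  have hρ0 : 0 ≤ regNorm a := (h1 F2 a a).1
  have hadj : adj (adj a * a) = adj a * a := by
    rw [(h2 F2 (adj a) a).2.2.1, (h2 F2 a a).2.1]
  have hnorm : regNorm (adj a * a) ≤ regNorm a ^ 2 := by
    refine (h1 F2 (adj a) a).2.2.2.2.2.2.1.trans ?_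
    rw [(h2 F2 a a).2.2.2.1, sq]
  have hlt : regNorm (adj a * a) < (regNorm a + ε) ^ 2 := by
    refine hnorm.trans_lt ?_
    nlinarith
  filter_upwards [h4 (adj a * a) ((regNorm a + ε) ^ 2) δ hadj hlt hδ] with N hN
  refine le_trans ?_ hN
  norm_cast
  refine Finset.card_le_card fun σ hσ => ?_
  classical
  obtain ⟨v, hv0, hv⟩ := (Finset.mem_filter.mp hσ).2
  refine Finset.mem_filter.mpr ⟨Finset.mem_univ _, v, hv0, ?_⟩
  have hR := (h3 F2 (EuclideanSpace ℂ (Fin N)) (permRep (FreeGroup.lift σ)) a a v v).2.2.2.2.2.2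
  have hr0 : 0 ≤ regNorm a + ε := by linarith
  have hnv : 0 < ‖v‖ := by
    rcases (norm_nonneg v).lt_or_eq with h | h
    · exact h
    · exfalso
      have hv' : v = 0 := norm_eq_zero.mp h.symm
      rw [hv'] at hv
      simp at hv
  have h5 : ((regNorm a + ε) * ‖v‖) ^ 2 < ‖rep (permRep (FreeGroup.lift σ)) a v‖ ^ 2 :=
    pow_lt_pow_left₀ hv (mul_nonneg hr0 hnv.le) two_ne_zero
  have h6 : (regNorm a + ε) ^ 2 * ‖v‖ * ‖v‖ <
      ‖rep (permRep (FreeGroup.lift σ)) (adj a * a) v‖ * ‖v‖ := by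
    calc _ = ((regNorm a + ε) * ‖v‖) ^ 2 := by ring
      _ < _ := h5.trans_le hR
  exact lt_of_mul_lt_mul_right h6 hnv.le

end Pool.Agent.RP
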