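import Pool.Agent.helper62.RP.Spec

set_option autoImplicit false

open Polynomial Filter
open Pool.Agent.QU

namespace Pool.Agent.RP

theorem SCS_avg (N : ℕ) (b : MonoidAlgebra ℂ F2) :
    ∑ σ : Fin 2 → Equiv.Perm (Fin N), tau N b (FreeGroup.lift σ) =
      (N.factorial : ℝ) ^ 2 * TT N b := by
  have hN : ((N.factorial : ℝ) ^ 2) ≠ 0 := pow_ne_zero _ (by exact_mod_cast N.factorial_ne_zero)
  have hc : (Fintype.card (Fin 2 → Equiv.Perm (Fin N)) : ℝ) = (N.factorial : ℝ) ^ 2 := by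
    rw [Fintype.card_fun, Fintype.card_perm, Fintype.card_fin, Fintype.card_fin]
    push_cast
    rfl
  unfold tau TT
  rw [Finset.sum_comm, Finset.mul_sum]
  refine Finset.sum_congr rfl fun w _ => ?_
  rw [← Finset.mul_sum, Finset.sum_sub_distrib, Finset.sum_const, nsmul_eq_mul, mul_one,
    Finset.card_univ, hc]
  have : ∑ σ : Fin 2 → Equiv.Perm (Fin N), (fx (FreeGroup.lift σ w) : ℝ) =
      (N.factorial : ℝ) ^ 2 * Ew N w := by
    unfold Ew
    rw [mul_div_cancel₀ _ hN]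
  rw [this]
  ring

theorem SCS (h1 : RNB_stmt) (h2 : BAL_stmt) (h3 : TST_stmt) (h4 : TRM_stmt) (h5 : MUB_stmt)
    (h6 : ASY_stmt) (h7 : NUA_stmt) : SCS_stmt := by
  intro a r δ ha hr hδ
  have hρ0 : 0 ≤ regNorm a := (h1 F2 a a).1
  obtain ⟨q, hq⟩ : ∃ q : ℕ, ∀ t ∈ a.coeff.support, t.norm ≤ q :=
    ⟨a.coeff.support.sup FreeGroup.norm, fun t ht => Finset.le_sup (f := FreeGroup.norm) ht⟩
  set K : ℝ := max (∑ w ∈ a.coeff.support, ‖a.coeff w‖) r with hK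
  obtain ⟨D₀, hD₀, hT⟩ := h3 (regNorm a) r K hρ0 hr (le_max_right _ _)
  have hB : 1 ≤ (ball q).card := by
    apply Finset.card_pos.mpr
    exact ⟨1, (h2 q 1).2 (by simp)⟩
  obtain ⟨e1, e2⟩ := h7 q D₀ (ball q).card
  filter_upwards [e1, e2.eventually (gt_mem_nhds hδ)] with N hN hlt
  obtain ⟨hs, hN8⟩ := hN
  set s := Nat.log 4 N with hsdef
  obtain ⟨h, hdeg, hh0, hb1, hb2, hmaj⟩ := hT s hs
  set b := pev h a with hb
  set L := nuL q D₀ s with hL
  have hL1 : 1 ≤ L := by rw [hL]; unfold nuL; omega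
  have hqL : q * (D₀ * s) ≤ L := by rw [hL]; unfold nuL; omega
  obtain ⟨m1, m2, m3⟩ := h5 a q (D₀ * s) L h hq hdeg hqL hL1
  set e := nuE q D₀ (ball q).card s with he
  have hcoef : (1 : ℝ) ≤ (L : ℝ) * (((D₀ * s : ℕ) : ℝ) + 1) ^ 3 * ((ball q).card : ℝ) ^ 3 := by
    have t1 : (1 : ℝ) ≤ L := by exact_mod_cast hL1
    have t2 : (1 : ℝ) ≤ (((D₀ * s : ℕ) : ℝ) + 1) ^ 3 :=
      one_le_pow₀ (by linarith [Nat.cast_nonneg (α := ℝ) (D₀ * s)])
    have t3 : (1 : ℝ) ≤ ((ball q).card : ℝ) ^ 3 := one_le_pow₀ (by exact_mod_cast hB)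
    exact one_le_mul_of_one_le_of_one_le (one_le_mul_of_one_le_of_one_le t1 t2) t3
  have hs64 : (0 : ℝ) ≤ (1 / 64) ^ s := by positivity
  have m2' : |(b.coeff 1).re| ≤ e := by
    refine m2.trans (hmaj.trans ?_)
    rw [he]
    unfold nuE
    exact le_mul_of_one_le_left hs64 hcoef
  have m3' : |∑ w ∈ b.coeff.support.erase 1, (b.coeff w).re * ((dv L w : ℝ) - 1)| ≤ e := by
    refine m3.trans ?_
    rw [he]
    unfold nuE
    exact mul_le_mul_of_nonneg_left hmaj (by linarith)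
  have hTR := fun (N' : ℕ) (hN' : 0 < N') => h4 N' a K (2 ^ s) r h hN' ha (le_max_left _ _)
    (hρ0.trans hr.le) hh0 hb1 hb2
  have hfac : ∀ N' : ℕ, (0 : ℝ) < (N'.factorial : ℝ) ^ 2 := fun N' => by positivity
  have hcard : ∀ N' : ℕ, (Fintype.card (Fin 2 → Equiv.Perm (Fin N')) : ℝ) =
      (N'.factorial : ℝ) ^ 2 := by
    intro N'
    rw [Fintype.card_fun, Fintype.card_perm, Fintype.card_fin, Fintype.card_fin]
    push_cast
    rfl
  have hTT : ∀ N' : ℕ, L ≤ N' → |TT N' b| ≤ 2 ^ s * (N' : ℝ) := by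
    intro N' hN'
    have hpos : 0 < N' := by omega
    have hsum := SCS_avg N' b
    have l0 : 0 ≤ ∑ σ : Fin 2 → Equiv.Perm (Fin N'), tau N' b (FreeGroup.lift σ) :=
      Finset.sum_nonneg fun σ _ => (hTR N' hpos (FreeGroup.lift σ)).1
    have l1 : ∑ σ : Fin 2 → Equiv.Perm (Fin N'), tau N' b (FreeGroup.lift σ) ≤
        (N'.factorial : ℝ) ^ 2 * (2 ^ s * (N' : ℝ)) := by
      refine (Finset.sum_le_sum fun σ _ => (hTR N' hpos (FreeGroup.lift σ)).2.1).trans ?_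
      rw [Finset.sum_const, nsmul_eq_mul, Finset.card_univ, hcard]
    rw [hsum] at l0 l1
    have p0 : 0 ≤ TT N' b := nonneg_of_mul_nonneg_right l0 (hfac N')
    rw [abs_of_nonneg p0]
    exact le_of_mul_le_mul_left l1 (hfac N')
  have hA := h6 b L (2 ^ s) e hL1 m1 hTT m2' m3' N hN8
  have hNpos : 0 < N := by
    have : 0 < 8 * (2 * L + 1) ^ 2 := by positivity
    omega
  have hTTδ : TT N b ≤ δ := (le_abs_self _).trans (hA.trans hlt.le)
  calc ((bad N a r).card : ℝ) = ∑ σ ∈ bad N a r, (1 : ℝ) := by simp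
    _ ≤ ∑ σ ∈ bad N a r, tau N b (FreeGroup.lift σ) := by
        refine Finset.sum_le_sum fun σ hσ => ?_
        refine (hTR N hNpos (FreeGroup.lift σ)).2.2 ?_
        classical
        exact (Finset.mem_filter.mp hσ).2
    _ ≤ ∑ σ : Fin 2 → Equiv.Perm (Fin N), tau N b (FreeGroup.lift σ) :=
        Finset.sum_le_univ_sum_of_nonneg fun σ => (hTR N hNpos (FreeGroup.lift σ)).1
    _ = (N.factorial : ℝ) ^ 2 * TT N b := SCS_avg N b
    _ ≤ (N.factorial : ℝ) ^ 2 * δ := mul_le_mul_of_nonneg_left hTTδ (hfac N).le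
    _ = δ * (N.factorial : ℝ) ^ 2 := mul_comm _ _

end Pool.Agent.RP
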