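import Pool.Agent.helper16.RP.RNB
import Pool.Agent.helper72.RP.ADJ
import Pool.Agent.helper16.RP.OPB
import Pool.Agent.helper23.RP.PUS
import Pool.Agent.helper78.RP.REP
import Pool.Agent.helper16.RP.PWR
import Pool.Agent.helper11.RP.SUB
import Pool.Agent.helper46.RP.SCH
import Pool.Agent.helper89.RP.BAL
import Pool.Agent.helper11.RP.TRE
import Pool.Agent.helper31.RP.CYC
import Pool.Agent.helper16.RP.KBD
import Pool.Agent.helper45.RP.FPD
import Pool.Agent.helper23.RP.PS1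
import Pool.Agent.helper56.RP.PSM
import Pool.Agent.helper56.RP.MKV
import Pool.Agent.helper56.RP.DIS
import Pool.Agent.helper78.RP.TST
import Pool.Agent.helper96.RP.PEX
import Pool.Agent.helper70.RP.TRJ
import Pool.Agent.helper18.RP.CTT
import Pool.Agent.helper72.RP.KRN
import Pool.Agent.helper78.RP.KIV
import Pool.Agent.helper39.RP.FRM
import Pool.Agent.helper8.RP.DRT
import Pool.Agent.helper48.RP.PRD
import Pool.Agent.helper48.RP.PC1
import Pool.Agent.helper48.RP.PC2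
import Pool.Agent.helper7.RP.EX1
import Pool.Agent.helper89.RP.EXP
import Pool.Agent.helper7.RP.LAL
import Pool.Agent.helper54.RP.TRM
import Pool.Agent.helper31.RP.MUB
import Pool.Agent.helper72.RP.POL
import Pool.Agent.helper56.RP.ASY
import Pool.Agent.helper18.RP.NUA
import Pool.Agent.helper62.RP.SCS
import Pool.Agent.helper62.RP.SCG
import Pool.Agent.helper62.RP.SCF
import Pool.Agent.helper23.RP.HA1
import Pool.Agent.helper70.RP.HA2
import Pool.Agent.helper23.RP.HAA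
import Pool.Agent.helper90.RP.TRN
import Pool.Agent.helper61.RP.KLM
import Pool.Agent.helper89.RP.ALT
import Pool.Agent.helper34.RP.RED
import Pool.Agent.helper62.RP.INJ
import Pool.Agent.helper23.RP.NUM
import Pool.Agent.helper62.RP.DBL
import Pool.Agent.helper29.RP.SG2
import Pool.Agent.helper22.RP.SGE
import Pool.Agent.helper13.RP.TRA
import Pool.Agent.helper89.RP.SGF
import Pool.Agent.helper96.RP.DIA

/-!
# MP_07c750_an: assembly of the rows rp:X
-/

namespace Pool.Agent.RP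

theorem A_RNB : RNB_stmt := RNB

theorem A_ADJ : ADJ_stmt := ADJ A_RNB

theorem A_OPB : OPB_stmt := OPB A_RNB A_ADJ

theorem A_PUS : PUS_stmt := PUS

theorem A_REP : REP_stmt := REP

theorem A_PWR : PWR_stmt := PWR A_RNB A_ADJ

theorem A_SUB : SUB_stmt := SUB A_RNB

theorem A_SCH : SCH_stmt := SCH A_PUS A_SUB

theorem A_BAL : BAL_stmt := BAL

theorem A_TRE : TRE_stmt := TRE

theorem A_CYC : CYC_stmt := CYC

theorem A_KBD : KBD_stmt := KBD A_RNB A_OPB

theorem A_FPD : FPD_stmt := FPD A_BAL A_TRE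

theorem A_PS1 : PS1_stmt := PS1 A_BAL A_TRE A_FPD

theorem A_PSM : PSM_stmt := PSM A_RNB A_OPB A_CYC A_KBD A_PS1

theorem A_MKV : MKV_stmt := MKV

theorem A_DIS : DIS_stmt := DIS A_MKV

theorem A_TST : TST_stmt := TST

theorem A_PEX : PEX_stmt := PEX

theorem A_TRJ : TRJ_stmt := TRJ

theorem A_CTT : CTT_stmt := CTT A_PEX

theorem A_KRN : KRN_stmt := KRN

theorem A_KIV : KIV_stmt := KIV

theorem A_FRM : FRM_stmt := FRM A_TRJ A_CTT A_KRN A_KIV

theorem A_DRT : DRT_stmt := DRT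

theorem A_PRD : PRD_stmt := PRD

theorem A_PC1 : PC1_stmt := PC1

theorem A_PC2 : PC2_stmt := PC2

theorem A_EX1 : EX1_stmt := EX1 A_FRM A_DRT A_PRD A_PC1 A_PC2

theorem A_EXP : EXP_stmt := EXP A_EX1

theorem A_LAL : LAL_stmt := LAL

theorem A_TRM : TRM_stmt := TRM A_LAL A_REP

theorem A_MUB : MUB_stmt := MUB A_RNB A_PSM

theorem A_POL : POL_stmt := POL A_EXP

theorem A_ASY : ASY_stmt := ASY A_DIS A_POL

theorem A_NUA : NUA_stmt := NUA

theorem A_SCS : SCS_stmt := SCS A_RNB A_BAL A_TST A_TRM A_MUB A_ASY A_NUA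

theorem A_SCG : SCG_stmt := SCG A_RNB A_ADJ A_REP A_SCS

theorem A_SCF : SCF_stmt := SCF A_SCG

theorem A_HA1 : HA1_stmt := HA1

theorem A_HA2 : HA2_stmt := HA2 A_HA1

theorem A_HAA : HAA_stmt := HAA A_RNB A_HA2

theorem A_TRN : TRN_stmt := TRN A_RNB A_ADJ A_PUS A_PWR A_HAA

theorem A_KLM : KLM_stmt := KLM

theorem A_ALT : ALT_stmt := ALT A_KLM

theorem A_RED : RED_stmt := RED

theorem A_INJ : INJ_stmt := INJ A_ALT A_RED

theorem A_NUM : NUM_stmt := NUM

theorem A_DBL : DBL_stmt := DBL A_PUS A_TRN A_INJ A_NUM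

theorem A_SG2 : SG2_stmt := SG2

theorem A_SGE : SGE_stmt := SGE

theorem A_TRA : TRA_stmt := TRA A_RNB A_PUS A_REP A_SUB A_HAA

theorem A_SGF : SGF_stmt := SGF

theorem A_DIA : DIA_stmt := DIA A_RNB A_REP

end Pool.Agent.RP
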