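import Pool.Agent.helper62.RP.Defs

set_option autoImplicit false

/-!
# MP_07c750, unconditional form: strong convergence of random permutations and of surface groups, rows `rp:X`

Prove `X_stmt` in `Pool/Agent/<seat>/RP/X.lean`, namespace `Pool.Agent.RP`, auxiliary lemmas prefixed `X_`.
The theorem has the rows listed after the word from as hypotheses, in this order, e.g.
`theorem PSM (h1 : BAL_stmt) (h2 : CYC_stmt) (h3 : KBD_stmt) (h4 : PS1_stmt) (h5 : RNB_stmt) : PSM_stmt`.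

Plan. (A) For `a` in the group algebra of the free group `F2` and uniform `σ₀, σ₁ ∈ S_N` the norm of `a` on the
vectors of sum zero is `≤ regNorm a + ε` with probability `→ 1` (SCG; polynomial method). (B) The genus two
surface group is a double of `F2` along the commutator and is mapped to `F2` by `ψ_h`, injectively on
balls of radius about `h`; with the Haagerup inequality this transfers (A) to surface groups (DBL, SGC).
(C) Diagonal sequence, transitivity (DIA, TRA).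
-/

open Polynomial Filter
open Pool.Agent.QU

namespace Pool.Agent.RP

/-! ### Group R: group algebra and regular representation -/

/-- **Row RNB** (short-medium). The set in the definition of `regNorm` is nonempty (`∑ ‖a γ‖` belongs to it, since
`l2 (single γ z * u) = ‖z‖ l2 u` and `l2` is a norm), bounded below by `0` and closed; so `regNorm a` belongs to
it. `l2 a = l2 (a * 1) ≤ regNorm a * l2 1`, `l2 1 = 1`. The others follow from the second and third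
clause (`(a * b) * u = a * (b * u)`). -/
def RNB_stmt : Prop := ∀ (G : Type) [Group G] (a b : MonoidAlgebra ℂ G),
  0 ≤ regNorm a ∧
  (∀ u : MonoidAlgebra ℂ G, l2 (a * u) ≤ regNorm a * l2 u) ∧
  (∀ c : ℝ, 0 ≤ c → (∀ u : MonoidAlgebra ℂ G, l2 (a * u) ≤ c * l2 u) → regNorm a ≤ c) ∧
  regNorm a ≤ ∑ γ ∈ a.coeff.support, ‖a.coeff γ‖ ∧
  l2 a ≤ regNorm a ∧ (∀ γ, ‖a.coeff γ‖ ≤ l2 a) ∧
  regNorm (a * b) ≤ regNorm a * regNorm b ∧ (∀ n : ℕ, regNorm (a ^ n) ≤ regNorm a ^ n) ∧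
  regNorm (a + b) ≤ regNorm a + regNorm b ∧ (∀ z : ℂ, regNorm (z • a) ≤ ‖z‖ * regNorm a) ∧
  l2 (a + b) ≤ l2 a + l2 b

/-- **Row ADJ** (medium), from RNB. With `⟨u, v⟩ = ∑ conj(u γ) v γ` one has `⟨a * u, v⟩ = ⟨u, adj a * v⟩` and
`|⟨u, v⟩| ≤ l2 u * l2 v`. So `l2 (adj a * u)² = ⟨u, a * (adj a * u)⟩ ≤ l2 u * regNorm a * l2 (adj a * u)`,
i.e. `regNorm (adj a) ≤ regNorm a` and equality by `adj (adj a) = a`; and
`l2 (a * u)² = ⟨u, adj a * a * u⟩ ≤ regNorm (adj a * a) * l2 u²`. Right multiplication: with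
`û(γ) = u(γ⁻¹)` one has `(u * a)^ = â * û`, `â = conj (adj a)` (coefficientwise conjugation) and
`regNorm (conj b) = regNorm b` since `conj (b * u) = conj b * conj u`. -/
def ADJ_stmt : Prop := ∀ (G : Type) [Group G] (a b : MonoidAlgebra ℂ G),
  (∀ γ, (adj a).coeff γ = star (a.coeff γ⁻¹)) ∧ adj (adj a) = a ∧ adj (a * b) = adj b * adj a ∧
  regNorm (adj a) = regNorm a ∧ regNorm a ^ 2 ≤ regNorm (adj a * a) ∧
  (∀ u : MonoidAlgebra ℂ G, l2 (u * a) ≤ regNorm a * l2 u)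

/-- **Row OPB** (short-medium), from RNB, ADJ. First clause: for `f` of finite support the function is
`f * ǎ`, `ǎ(t) = a(t⁻¹)`, i.e. `ǎ = conj (adj a)`, whose norm is `regNorm a` by RNB/ADJ (see ADJ). For general `f`
and a finite set `S` the values on `S` depend only on `f` on the finite set `{x * t : x ∈ S, t ∈ supp a}`;
replace `f` by its restriction. Second clause: `l2 (a ^ p) ≤ regNorm (a ^ p) ≤ regNorm a ^ p`. -/
def OPB_stmt : Prop := ∀ (G : Type) [Group G] (a : MonoidAlgebra ℂ G),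
  (∀ (f : G → ℂ) (c : ℝ), 0 ≤ c → SqB f c →
    SqB (fun x => ∑ t ∈ a.coeff.support, a.coeff t * f (x * t)) (regNorm a * c)) ∧
  ∀ p : ℕ, SqB (fun x => (a ^ p).coeff x) (regNorm a ^ p)

/-- **Row PUS** (short-medium). `push f` is the algebra homomorphism induced by `f` (compare with
`MonoidAlgebra.mapDomain`, or prove additivity first and check on `single`). `rep` is additive in `a`, check the
last clause on `single`. -/
def PUS_stmt : Prop := ∀ (G H : Type) [Group G] [Group H] (f : G →* H) (a b : MonoidAlgebra ℂ G),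
  push f (a * b) = push f a * push f b ∧ push f (a + b) = push f a + push f b ∧
  (∀ n : ℕ, push f (a ^ n) = push f a ^ n) ∧ push f (adj a) = adj (push f a) ∧
  (∀ x ∈ (push f a).coeff.support, ∃ γ ∈ a.coeff.support, f γ = x) ∧
  (Set.InjOn f (a.coeff.support : Set G) → l2 (push f a) = l2 a) ∧
  (∀ (V : Type) [NormedAddCommGroup V] [InnerProductSpace ℂ V] (ρ : H →* (V ≃ₗᵢ[ℂ] V)),
    rep (ρ.comp f) a = rep ρ (push f a)) ∧
  ∀ (N : ℕ) (σ : H →* Equiv.Perm (Fin N)), permRep (σ.comp f) = (permRep σ).comp f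

/-- **Row REP** (short-medium). `rep ρ` is the `*`-homomorphism of the group algebra given by `ρ`; `ρ γ` is unitary,
so its adjoint is `ρ γ⁻¹`. Last clause: `‖A v‖² = ⟪A* A v, v⟫ ≤ ‖A* A v‖ ‖v‖`. -/
def REP_stmt : Prop := ∀ (G : Type) [Group G] (V : Type) [NormedAddCommGroup V] [InnerProductSpace ℂ V]
  (ρ : G →* (V ≃ₗᵢ[ℂ] V)) (a b : MonoidAlgebra ℂ G) (v w : V),
  rep ρ (a * b) v = rep ρ a (rep ρ b v) ∧ rep ρ (a + b) = rep ρ a + rep ρ b ∧
  (∀ z : ℂ, rep ρ (z • a) = z • rep ρ a) ∧ rep ρ 1 = ContinuousLinearMap.id ℂ V ∧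
  ‖rep ρ a v‖ ≤ (∑ γ ∈ a.coeff.support, ‖a.coeff γ‖) * ‖v‖ ∧
  inner ℂ (rep ρ (adj a) v) w = inner ℂ v (rep ρ a w) ∧
  ‖rep ρ a v‖ ^ 2 ≤ ‖rep ρ (adj a * a) v‖ * ‖v‖

/-- **Row PWR** (short), from RNB, ADJ. Induction on `j`: `y = (adj a * a) ^ (2 ^ j)` satisfies `adj y = y`, so
`regNorm y ^ 2 ≤ regNorm (y * y)`. -/
def PWR_stmt : Prop := ∀ (G : Type) [Group G] (a : MonoidAlgebra ℂ G) (j : ℕ),
  regNorm a ^ (2 ^ (j + 1)) ≤ regNorm ((adj a * a) ^ (2 ^ j))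

/-- **Row SUB** (medium), from RNB. For `u` on `G` and a right coset `ι(H) g` put `u_g(h) = u(ι(h) g)`, an element
of the group algebra of `H`. Then `(push ι a * u)(ι(h) g) = (a * u_g)(h)`, so the sum of `|push ι a * u|²` over the
coset is `≤ regNorm a ^ 2 * ∑_{coset} |u|²`; sum over the finitely many cosets which meet the supports. -/
def SUB_stmt : Prop := ∀ (G H : Type) [Group G] [Group H] (ι : H →* G), Function.Injective ι →
  ∀ a : MonoidAlgebra ℂ H, regNorm (push ι a) ≤ regNorm a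

/-- **Row SCH** (short), from PUS, SUB. Apply `SC G` to the finite set of all `push ι a`, `a ∈ S`, and take `σ.comp ι`. -/
def SCH_stmt : Prop := ∀ (G H : Type) [Group G] [Group H] (ι : H →* G), Function.Injective ι → SC G → SC H

/-! ### Group W: the tree of the free group and the power sums -/

/-- **Row BAL** (short). `norm x = x.toWord.length`, `mk x.toWord = x`, `norm (mk L) ≤ L.length`. -/
def BAL_stmt : Prop := ∀ (q : ℕ) (s : F2), s ∈ ball q ↔ s.norm ≤ q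

/-- **Row TRE** (short-medium). If `Sep x y` then `invRev x.toWord ++ y.toWord` is reduced. Second clause: if all of
`x, y, w ≠ 1` and the first letters of `x`, `y` differ then the first letter of `w` differs from one of
them. Third clause (used as: `1` between `x` and `y`, `x'` near `x`): by the second `Sep x x'` or `Sep x' y`; in
the first case `|x'| ≤ |x| + |x'| = |x⁻¹ x'| ≤ q`. -/
def TRE_stmt : Prop := (∀ x y : F2, Sep x y → (x⁻¹ * y).norm = x.norm + y.norm) ∧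
  (∀ x y w : F2, Sep x y → Sep x w ∨ Sep w y) ∧
  ∀ (x y x' : F2) (q : ℕ), Sep x y → (x⁻¹ * x').norm ≤ q → x'.norm ≤ q ∨ Sep x' y

/-- **Row CYC** (medium). `v = g u g⁻¹` with `g = mk (conjugator v.toWord)`, `u = mk (reduceCyclically v.toWord)`
(Mathlib, `FreeGroup.reduceCyclically`): `g.toWord ++ u.toWord ++ invRev g.toWord` is the reduced word of `v` and
`u` is cyclically reduced, `u ≠ 1`. So `toWord (u ^ k * g⁻¹) = u.toWord^k ++ invRev g.toWord` for `k ≥ 1`, its first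
letter is the first letter of `u`. The three `Sep` compare: the inverse of the last letter of `g` with the
first letter of `u` (if `g ≠ 1`); the inverse of the last letter of `u` with the first letter of `u`; the inverse of
the last letter of `u` with the first letter of `g⁻¹`. -/
def CYC_stmt : Prop := ∀ v : F2, v ≠ 1 → ∃ g u : F2, v = g * u * g⁻¹ ∧ u ≠ 1 ∧ ∀ k : ℕ, 2 ≤ k →
  Sep g⁻¹ (u ^ k * g⁻¹) ∧ Sep u⁻¹ (u ^ (k - 1) * g⁻¹) ∧ Sep (u ^ (k - 1))⁻¹ g⁻¹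

/-- **Row KBD** (short), from RNB, OPB. Induction on `i`: `kil a q s (i+1)` is the product of an indicator function
with the function of OPB for `f = kil a q s i`. -/
def KBD_stmt : Prop := ∀ (a : MonoidAlgebra ℂ F2) (q : ℕ) (s : F2) (i : ℕ),
  SqB (kil a q s i) (regNorm a ^ i)

/-- **Row FPD** (medium; first passage decomposition), from BAL, TRE. Induction on `p`, all `x`. If `|x| ≤ q`
then `kil a q s (i+1) x = 0` and the sum is the term `i = 0`, `s = x`. If `|x| > q` then `Sep x y`. `p = 0`: `x = y`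
would give `2|x| = 0`, so both sides are `0`. `p + 1`: `a ^ (p+1) = a * a ^ p`, so
`(a^(p+1))(x⁻¹ y) = ∑_t a(t) (a^p)((x t)⁻¹ y)`, every `t` in the support has `|t| ≤ q`, hence `|x t| ≤ q` or
`Sep (x t) y` by TRE (third clause), use the induction hypothesis and the definition of `kil` (the term `i = 0` is zero
since `x ≠ s` for `s` in the ball). -/
def FPD_stmt : Prop := ∀ (a : MonoidAlgebra ℂ F2) (q : ℕ), (∀ t ∈ a.coeff.support, t.norm ≤ q) →
  ∀ (p : ℕ) (x y : F2), (x.norm ≤ q ∨ Sep x y) → (a ^ p).coeff (x⁻¹ * y) =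
    ∑ i ∈ Finset.range (p + 1), ∑ s ∈ ball q, kil a q s i x * (a ^ (p - i)).coeff (s⁻¹ * y)

/-- **Row PS1** (short-medium), from BAL, TRE, FPD. `(g u g⁻¹)^k = g u^k g⁻¹`. Apply FPD with
(1) `x = g⁻¹`, `y = u^k g⁻¹`; (2) for each `s₀` in the ball `x = u⁻¹ s₀`, `y = u^(k-1) g⁻¹` (`x⁻¹ y = s₀⁻¹ u^k g⁻¹`;
hypothesis by TRE 3 from `Sep u⁻¹ y`, `|s₀| ≤ q`); (3) `x = (u^(k-1))⁻¹ s₁`, `y = g⁻¹`. Triangle inequality. -/
def PS1_stmt : Prop := ∀ (a : MonoidAlgebra ℂ F2) (q : ℕ), (∀ t ∈ a.coeff.support, t.norm ≤ q) →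
  ∀ (g u : F2) (k p : ℕ), 2 ≤ k → Sep g⁻¹ (u ^ k * g⁻¹) → Sep u⁻¹ (u ^ (k - 1) * g⁻¹) →
    Sep (u ^ (k - 1))⁻¹ g⁻¹ →
    ‖(a ^ p).coeff ((g * u * g⁻¹) ^ k)‖ ≤
      ∑ i ∈ Finset.range (p + 1), ∑ s₀ ∈ ball q, ∑ j ∈ Finset.range (p - i + 1), ∑ s₁ ∈ ball q,
        ∑ l ∈ Finset.range (p - i - j + 1), ∑ s₂ ∈ ball q,
          ‖kil a q s₀ i g⁻¹‖ * (‖kil a q s₁ j (u⁻¹ * s₀)‖ *
            (‖kil a q s₂ l ((u ^ (k - 1))⁻¹ * s₁)‖ * ‖(a ^ (p - i - j - l)).coeff (s₂⁻¹ * g⁻¹)‖))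

/-- **Row PSM** (medium), from RNB, OPB, CYC, KBD, PS1. For `v ∈ S` take `g, u` of CYC; `v ↦ (g, u)` is injective. Bound
by PS1 and extend the sum to all pairs `(g, u)` in a product of two finite sets. For fixed `i, j, l, s₀, s₁, s₂`
the sum over `(g, u)` is a product, by Cauchy-Schwarz
`∑_g ‖kil s₀ i g⁻¹‖ ‖a^m(s₂⁻¹ g⁻¹)‖ ≤ ρ^i ρ^m` (`m = p - i - j - l`, OPB 2) and
`∑_u ‖kil s₁ j (u⁻¹ s₀)‖ ‖kil s₂ l ((u^(k-1))⁻¹ s₁)‖ ≤ ρ^j ρ^l`, since `g ↦ g⁻¹`, `u ↦ u⁻¹ s₀` and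
`u ↦ (u^(k-1))⁻¹ s₁` are injective (`IsMulTorsionFree (FreeGroup _)`, `k - 1 ≠ 0`). There are at most `(p+1)^3`
triples `(i, j, l)`. -/
def PSM_stmt : Prop := ∀ (a : MonoidAlgebra ℂ F2) (q : ℕ), (∀ t ∈ a.coeff.support, t.norm ≤ q) →
  ∀ k p : ℕ, 2 ≤ k → ∀ S : Finset F2, (1 : F2) ∉ S →
    ∑ v ∈ S, ‖(a ^ p).coeff (v ^ k)‖ ≤
      ((p : ℝ) + 1) ^ 3 * ((ball q).card : ℝ) ^ 3 * regNorm a ^ p

/-! ### Group P: polynomials of one variable -/

/-- **Row MKV** (short-medium; Markov inequality up to a constant). `H ≥ 0`; if `H = 0` then `p = 0`. For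
`x ∈ [a/2, a]` put `P(t) = p(x (1+t)/2)`, of degree `≤ D`, `|P| ≤ H` on `[-1,1]`, `P'(1) = p'(x) x / 2`. Mathlib:
`Polynomial.Chebyshev.eval_iterate_derivative_le_of_forall_abs_le_one` for `k = 1`, `x = 1` and `±P/H`, with
`Polynomial.Chebyshev.derivative_T_eval_one`: `|P'(1)| ≤ D² H`. For `x ∈ [0, a/2]` use
`P(t) = p(x + (a - x)(1 - t)/2)`. -/
def MKV_stmt : Prop := ∀ (p : ℝ[X]) (D : ℕ) (a H : ℝ), p.natDegree ≤ D → 0 < a →
  (∀ x, 0 ≤ x → x ≤ a → |p.eval x| ≤ H) →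
  ∀ x, 0 ≤ x → x ≤ a → |p.derivative.eval x| ≤ 4 * (D : ℝ) ^ 2 / a * H

/-- **Row DIS** (medium), from MKV. Let `S = max_{[0,1/M]} |p|`, attained at `x`. If `x = 0` then `S ≤ H` by continuity.
Otherwise `1/(n+1) < x ≤ 1/n` for some `n ≥ M`, and `|x - 1/n| ≤ 1/M²`, so by MKV with `a = 1/M`
`S ≤ H + 4 D² M S / M² ≤ H + S/2`. So `|p| ≤ 2H` on `[0, 1/M]`, twice MKV: `|p''| ≤ (4D²M)² 2H` there, and the
Taylor remainder at `x = 1/n` is `≤ 16 D⁴ M² H x²`. -/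
def DIS_stmt : Prop := ∀ (p : ℝ[X]) (D M : ℕ) (H : ℝ), 1 ≤ D → p.natDegree ≤ D → 8 * D ^ 2 ≤ M →
  (∀ n : ℕ, M ≤ n → |p.eval (1 / (n : ℝ))| ≤ H) →
  ∀ n : ℕ, M ≤ n → |p.eval (1 / (n : ℝ)) - p.eval 0 - p.derivative.eval 0 / n| ≤
    16 * (D : ℝ) ^ 4 * (M : ℝ) ^ 2 * H / (n : ℝ) ^ 2

/-- **Row TST** (medium). Choose `M ≥ 2` even with `(ρ/r)^M ≤ 1/512`, `y₀ = (r/K)^M ∈ (0, 1]`, `R = ⌈1/y₀⌉`,
`T = 1 - (1 - (x/K)^M)^R`, `h = (2T)^s`, `D₀ = M R`. `T(0) = 0`. For `|x| ≤ K` one has `(x/K)^M ∈ [0,1]`, so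
`T ∈ [0,1]`; for `|x| ≥ r` moreover `T ≥ 1 - (1 - y₀)^R ≥ 1 - exp(-R y₀) ≥ 1 - 1/e ≥ 1/2`. `maj` (for fixed `ρ ≥ 0`) is
subadditive and submultiplicative, and the coefficients of `T` are those of `(1 + (x/K)^M)^R - 1` up to signs, so
`maj T ρ ≤ (1 + y₁)^R - 1 ≤ exp(R y₁) - 1`, `y₁ = (ρ/K)^M`, `R y₁ ≤ 2 y₁/y₀ = 2 (ρ/r)^M ≤ 1/256`, so
`maj T ρ ≤ 1/128` and `maj h ρ ≤ (2/128)^s`. -/
def TST_stmt : Prop := ∀ ρ r K : ℝ, 0 ≤ ρ → ρ < r → r ≤ K → ∃ D₀ : ℕ, 1 ≤ D₀ ∧ ∀ s : ℕ, 1 ≤ s →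
  ∃ h : ℝ[X], h.natDegree ≤ D₀ * s ∧ h.eval 0 = 0 ∧
    (∀ x, |x| ≤ K → 0 ≤ h.eval x ∧ h.eval x ≤ 2 ^ s) ∧
    (∀ x, r ≤ |x| → |x| ≤ K → 1 ≤ h.eval x) ∧ maj h ρ ≤ (1 / 64) ^ s

/-! ### Group E: expected number of fixed points of a word -/

/-- **Row PEX** (medium). If the condition fails there is no such `σ`. Otherwise `E` is the graph of a bijection
`A → B`, `|A| = |B| = |E|`, and the `σ` correspond to the bijections of the complements (Mathlib:
`Equiv.subtypeCongr`-like tools; or induct on `E`: for `E ∪ {(p,q)}` all values `q ∉ B` of `σ p` are equally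
frequent, by composition with a transposition, and there are `N - |E|` of them). -/
def PEX_stmt : Prop := ∀ (N : ℕ) (E : Finset (Fin N × Fin N)),
  (Finset.univ.filter (fun σ : Equiv.Perm (Fin N) => ∀ e ∈ E, σ e.1 = e.2)).card =
    if (∀ e ∈ E, ∀ f ∈ E, (e.1 = f.1 ↔ e.2 = f.2)) then (N - E.card).factorial else 0

/-- **Row TRJ** (short-medium). `lift σ (mk L)` is the product of the `sg σ l`, `l ∈ L`, in order. A fixed point `i`
corresponds to `t` with `t 0 = i`, i.e. `t (n-1) = sg σ (w (n-1)) (t 0)`, ..., `t 0 = sg σ (w 0) (t 1)`; `t` is determined by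
`t 0`. -/
def TRJ_stmt : Prop := ∀ (n N : ℕ) [NeZero n] (w : Fin n → Ltr) (σ : Fin 2 → Equiv.Perm (Fin N)),
  fx (FreeGroup.lift σ (FreeGroup.mk (List.ofFn w))) =
    (Finset.univ.filter (fun t : Fin n → Fin N => ∀ i, t i = sg σ (w i) (t (i + 1)))).card

/-- **Row CTT** (short-medium), from PEX. `t i = sg σ (w i) (t (i+1))` means `σ x p = q` for `(x, p, q) = pr w t i`. So the
set of `σ` is a product over `x : Fin 2` of the sets of PEX for `E_x = {(p,q) : (x,p,q) ∈ edg w t}`,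
`|E_x| = nex w t x`, and `Con w t` says that both `E_x` satisfy the condition of PEX. -/
def CTT_stmt : Prop := ∀ (n N : ℕ) [NeZero n] (w : Fin n → Ltr) (t : Fin n → Fin N),
  (Finset.univ.filter (fun σ : Fin 2 → Equiv.Perm (Fin N) =>
    ∀ i, t i = sg σ (w i) (t (i + 1)))).card =
    if Con w t then ∏ x, (N - nex w t x).factorial else 0

/-- **Row KRN** (medium). For `t` let `c i` be the smallest `j` with `t j = t i`: the unique `c` with `Can c` and the same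
kernel. For given `c` the `t` with the kernel of `c` correspond to the injections of the image of `c` into `Fin N`
(`Fintype.card_embedding_eq`), their number is `N.descFactorial (nv c)`. -/
def KRN_stmt : Prop := ∀ (n N : ℕ) [NeZero n] (G : (Fin n → Fin N) → ℕ) (G' : (Fin n → Fin n) → ℕ),
  (∀ t c, Can c → (∀ i j, t i = t j ↔ c i = c j) → G t = G' c) →
  ∑ t, G t = ∑ c ∈ Finset.univ.filter (fun c : Fin n → Fin n => Can c), N.descFactorial (nv c) * G' c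

/-- **Row KIV** (short-medium). `pr w t i = pr w t j ↔ pr w c i = pr w c j` etc. since only equalities between
values of `t` are compared; the cardinality of the image of a function on a finite set depends only on its kernel
(`Finset.card_image`-type argument: choose representatives). -/
def KIV_stmt : Prop := ∀ (n : ℕ) [NeZero n] (β γ : Type) [DecidableEq β] [DecidableEq γ]
  (w : Fin n → Ltr) (t : Fin n → β) (c : Fin n → γ), (∀ i j, t i = t j ↔ c i = c j) →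
  (Con w t ↔ Con w c) ∧ (∀ x, nex w t x = nex w c x) ∧ nv t = nv c

/-- **Row FRM** (short), from TRJ, CTT, KRN, KIV. Exchange the sums over `σ` and `t`. -/
def FRM_stmt : Prop := ∀ (n N : ℕ) [NeZero n] (w : Fin n → Ltr),
  ∑ σ : Fin 2 → Equiv.Perm (Fin N), fx (FreeGroup.lift σ (FreeGroup.mk (List.ofFn w))) =
    ∑ c ∈ Finset.univ.filter (fun c : Fin n → Fin n => Can c ∧ Con w c),
      N.descFactorial (nv c) * ∏ x, (N - nex w c x).factorial

/-- **Row DRT** (medium-long). Darts: a dart is a pair (vertex, letter). Step `i` of the closed path gives the dart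
`(c i, w i)` and the dart `(c (i+1), linv (w i))`. An edge `(x, p, q)` gives the two darts `(q, (x,true))`,
`(p, (x,false))`; by `Con` (partial injections) the map from edges × {±} to darts is injective, so there
are exactly `2e` darts, `e = nex w c 0 + nex w c 1`. At the vertex `c i` there are the two darts with letters `w i` and
`linv (w (i-1))`, different by `CR`. So `2 nv c ≤ 2 e`. If `nv c = e` then every vertex has exactly two
darts. Let `c i = c j`. Then `{w i, linv (w (i-1))} = {w j, linv (w (j-1))}`. Suppose `w i ≠ w j`, then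
`w i = linv (w (j-1))`, and by `Con` the other ends of these two darts agree: `c (i+1) = c (j-1)`; the darts there
are `{w (i+1), linv (w i)} = {w (j-1), linv (w (j-2))}`, `linv (w i) = w (j-1)`, hence `w (i+1) = linv (w (j-2))`, and so on:
`w (i+k) = linv (w (j-1-k))` for all `k`. Choose `k` with `i + k = j - 1 - k` or with `i + k = j - k` in `Fin n` (possible,
one of the representatives `j - 1 - i`, `j - i` is even): the first contradicts `l ≠ linv l`, the second `CR`.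
So `w i = w j` and by `Con` `c (i+1) = c (j+1)`. -/
def DRT_stmt : Prop := ∀ (n : ℕ) [NeZero n] (w : Fin n → Ltr) (c : Fin n → Fin n), CR w → Con w c →
  nv c ≤ nex w c 0 + nex w c 1 ∧ (nv c = nex w c 0 + nex w c 1 → Rot w c)

/-- **Row PRD** (medium). `Rot` gives also `c (i+1) = c (j+1) → c i = c j` (apply it `n - 1` times). `Con`: two steps `i, j`
with the same generator `x`. If `w i = w j`, both equalities of `Con` say `c i = c j` (or both
`c (i+1) = c (j+1)`). If `w i = linv (w j)`, then `c (i+1) = c j` would give `w (i+1) = w j = linv (w i)`, against `CR`, and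
`c i = c (j+1)` would give `w i = w (j+1)`, `w j = linv (w (j+1))`, against `CR`; so both equalities of `Con` are
false. The same argument shows that `pr w c i = pr w c j` iff `c i = c j`, so `edg w c` and the image of `c` have the same
cardinality. -/
def PRD_stmt : Prop := ∀ (n : ℕ) [NeZero n] (w : Fin n → Ltr) (c : Fin n → Fin n), CR w → Rot w c →
  Con w c ∧ nv c = nex w c 0 + nex w c 1

/-- **Row PC1** (medium). `c ↦ d(c) =` the smallest `d ≥ 1` with `c (d mod n) = c 0`; by `Rot` and induction `c i = c j` iff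
`d ∣ i - j`, so `d ∣ n`, `w` has period `d` and `c i = i mod d` (by `Can`). Conversely `i ↦ i mod d` satisfies `Can` and
`Rot`. -/
def PC1_stmt : Prop := ∀ (n : ℕ) [NeZero n] (w : Fin n → Ltr),
  (Finset.univ.filter (fun c : Fin n → Fin n => Can c ∧ Rot w c)).card =
    (n.divisors.filter (fun d => ∀ i : Fin n, w (i + Fin.ofNat n d) = w i)).card

/-- **Row PC2** (medium). Let `W = mk (ofFn w)`, a reduced word (and cyclically reduced) by `CR`. If `v ^ k = W`, `k ≥ 1`, then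
by `FreeGroup.reduceCyclically.reduce_flatten_replicate` (see also `toWord_pow`) and since `W` is cyclically
reduced `conjugator v.toWord = []`, so `ofFn w = (replicate k v.toWord).flatten`, `n = k |v|` and `w` has period `|v|`.
Conversely if `d ∣ n` is a period then `v = mk (first d letters)` has `v ^ (n/d) = W`. So `k ↦ n / k` is a bijection. -/
def PC2_stmt : Prop := ∀ (n ℓ : ℕ) [NeZero n] (w : Fin n → Ltr), CR w → n ≤ ℓ →
  dv ℓ (FreeGroup.mk (List.ofFn w)) =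
    (n.divisors.filter (fun d => ∀ i : Fin n, w (i + Fin.ofNat n d) = w i)).card

/-- **Row EX1** (medium), from FRM, DRT, PRD, PC1, PC2.
`P = ∑_{c : Can, Con} X^(e - v) ∏_{j<v} (1 - jX) ∏_x ∏_{e_x ≤ j < ℓ} (1 - jX)`, `v = nv c ≤ n`, `e_x = nex w c x ≤ n`,
`e = e_0 + e_1 ≥ v` (DRT). For `N ≥ ℓ` all `1 - j/N`, `j < ℓ`, are positive,
`N.descFactorial v = N^v ∏_{j<v} (1 - j/N)` and `(N - e_x)!/N! = 1/N.descFactorial e_x`. The degree is
`≤ (e - v) + v + (2ℓ - e)`. `P(0)` is the number of `c` with `e = v`, i.e. with `Rot` (DRT, PRD), use PC1, PC2. -/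
def EX1_stmt : Prop := ∀ (n ℓ : ℕ) [NeZero n] (w : Fin n → Ltr), CR w → n ≤ ℓ →
  ∃ P : ℝ[X], P.natDegree ≤ 2 * ℓ ∧
    (∀ N : ℕ, ℓ ≤ N → Ew N (FreeGroup.mk (List.ofFn w)) * (gl ℓ).eval (1 / (N : ℝ)) =
      P.eval (1 / (N : ℝ))) ∧ P.eval 0 = dv ℓ (FreeGroup.mk (List.ofFn w))

/-- **Row EXP** (short-medium), from EX1. `w = g u g⁻¹` with `u ≠ 1` cyclically reduced, `|u| ≤ |w|` (see CYC); the number
of fixed points and the set of `k` for which `w` is a `k`-th power are conjugation invariant. -/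
def EXP_stmt : Prop := ∀ (ℓ : ℕ) (w : F2), w ≠ 1 → w.norm ≤ ℓ → ∃ P : ℝ[X], P.natDegree ≤ 2 * ℓ ∧
  (∀ N : ℕ, ℓ ≤ N → Ew N w * (gl ℓ).eval (1 / (N : ℝ)) = P.eval (1 / (N : ℝ))) ∧ P.eval 0 = dv ℓ w

/-! ### Group T: the trace method -/

/-- **Row LAL** (medium). `Π = N⁻¹ J` (`J` the all ones matrix), `A Π = Π A = c Π`, `A' = A - c Π = A (1 - Π)` is Hermitian
with `‖A'‖ ≤ K`; let `ev` be its eigenvalues. `A' Π = 0`, so `A^k = A'^k + c^k Π` for `k ≥ 1`, hence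
`h(A) = h(A') + (h(c) - h(0)) Π`; `tr Π = 1`, `tr h(A') = ∑ h(ev i)` (spectral theorem). For `v` of sum zero
`A v = A' v` and `‖A' v‖ ≤ max |ev i| ‖v‖`. -/
def LAL_stmt : Prop := ∀ (N : ℕ) (A : Matrix (Fin N) (Fin N) ℂ) (c K : ℝ) (h : ℝ[X]), 0 < N →
  A.IsHermitian → (A.mulVec (fun _ => 1) = fun _ => (c : ℂ)) →
  (∀ v : EuclideanSpace ℂ (Fin N), ‖Matrix.toEuclideanLin A v‖ ≤ K * ‖v‖) → h.eval 0 = 0 →
  ∃ ev : Fin N → ℝ, (∀ i, |ev i| ≤ K) ∧
    (∑ i ∈ Finset.range (h.natDegree + 1), ((h.coeff i : ℝ) : ℂ) • A ^ i).trace =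
      ((h.eval c + ∑ i, h.eval (ev i) : ℝ) : ℂ) ∧
    ∀ v : EuclideanSpace ℂ (Fin N), ∑ i, v i = 0 → ∀ m : ℝ, (∀ i, |ev i| ≤ m) →
      ‖Matrix.toEuclideanLin A v‖ ≤ m * ‖v‖

/-- **Row TRM** (medium), from LAL, REP. Let `A = ∑ a(w) P_w`, `P_w` the permutation matrix of `σ w`, i.e. the matrix of
`rep (permRep σ) a`; it is Hermitian since `adj a = a`, `A 1 = c 1` with `c = ∑ a(w)` real, norm `≤ K` (REP). With
`b = pev h a`: `∑ h_i A^i = ∑_w b(w) P_w`, trace `∑ b(w) fx (σ w)`, and `∑_w b(w) = h(c)`. So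
`tau = ∑_i h(ev i)`, all `|ev i| ≤ K`. If all `|ev i| ≤ r` there is no such `v`; otherwise one summand is `≥ 1`. -/
def TRM_stmt : Prop := ∀ (N : ℕ) (a : MonoidAlgebra ℂ F2) (K H r : ℝ) (h : ℝ[X]), 0 < N → adj a = a →
  ∑ w ∈ a.coeff.support, ‖a.coeff w‖ ≤ K → 0 ≤ r → h.eval 0 = 0 →
  (∀ x, |x| ≤ K → 0 ≤ h.eval x ∧ h.eval x ≤ H) → (∀ x, r ≤ |x| → |x| ≤ K → 1 ≤ h.eval x) →
  ∀ σ : F2 →* Equiv.Perm (Fin N), 0 ≤ tau N (pev h a) σ ∧ tau N (pev h a) σ ≤ H * N ∧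
    ((∃ v : EuclideanSpace ℂ (Fin N), ∑ i, v i = 0 ∧ r * ‖v‖ < ‖rep (permRep σ) a v‖) →
      1 ≤ tau N (pev h a) σ)

/-! ### Group A: strong convergence of random permutations -/

/-- **Row MUB** (medium), from RNB, PSM. `pev h a = ∑ h_i a^i`, `supp a^i` in the ball of radius `q i`. Second clause:
`‖(a^i)(1)‖ ≤ regNorm a ^ i` (RNB). Third: `dv L w - 1 = #{k ∈ [2, L] : ∃ v, v^k = w}` (`k = 1` always counts), and
for `w ≠ 1` and `k ≥ 1` there is at most one `v` with `v ^ k = w` (`IsMulTorsionFree`), `v ≠ 1`. So the sum is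
`∑_{k=2}^L ∑_{v ∈ S_k} Re b(v^k)`, `S_k` finite, `1 ∉ S_k`, and
`∑_{v ∈ S_k} |b(v^k)| ≤ ∑_p |h_p| ∑_v ‖(a^p)(v^k)‖ ≤ ∑_p |h_p| (p+1)^3 |ball q|^3 ρ^p` (PSM). -/
def MUB_stmt : Prop := ∀ (a : MonoidAlgebra ℂ F2) (q D L : ℕ) (h : ℝ[X]),
  (∀ t ∈ a.coeff.support, t.norm ≤ q) → h.natDegree ≤ D → q * D ≤ L → 1 ≤ L →
  (∀ w ∈ (pev h a).coeff.support, w.norm ≤ L) ∧
  |((pev h a).coeff 1).re| ≤ maj h (regNorm a) ∧
  |∑ w ∈ (pev h a).coeff.support.erase 1, ((pev h a).coeff w).re * ((dv L w : ℝ) - 1)| ≤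
    L * ((D : ℝ) + 1) ^ 3 * ((ball q).card : ℝ) ^ 3 * maj h (regNorm a)

/-- **Row POL** (medium), from EXP. With `c_w = Re b(w)` and `P_w` of EXP (`ℓ = L`):
`r = c_1 (1 - X) g + X ∑_{w ≠ 1} c_w (P_w - g)`, `g = gl L`, `g(0) = 1`, `g'(0) = -L(L-1)`. `Ew N 1 = N`. -/
def POL_stmt : Prop := ∀ (b : MonoidAlgebra ℂ F2) (L : ℕ), 1 ≤ L → (∀ w ∈ b.coeff.support, w.norm ≤ L) →
  ∃ r : ℝ[X], r.natDegree ≤ 2 * L + 1 ∧
    (∀ N : ℕ, L ≤ N → r.eval (1 / (N : ℝ)) = (gl L).eval (1 / (N : ℝ)) * (TT N b / N)) ∧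
    r.eval 0 = (b.coeff 1).re ∧
    r.derivative.eval 0 = -(1 + (L : ℝ) * (L - 1)) * (b.coeff 1).re +
      ∑ w ∈ b.coeff.support.erase 1, (b.coeff w).re * ((dv L w : ℝ) - 1)

/-- **Row ASY** (short-medium), from DIS, POL. `r` of POL satisfies `|r(1/N)| ≤ H` for `N ≥ L` (`0 ≤ g(1/N) ≤ 1`,
`g = gl L`). DIS with `D = 2L+1`, `M = 8D²`. `g(1/N) ≥ 1 - L(L-1)/N ≥ 1/2`, `TT N b = N r(1/N)/g(1/N)`. -/
def ASY_stmt : Prop := ∀ (b : MonoidAlgebra ℂ F2) (L : ℕ) (H e : ℝ), 1 ≤ L →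
  (∀ w ∈ b.coeff.support, w.norm ≤ L) → (∀ N : ℕ, L ≤ N → |TT N b| ≤ H * N) →
  |(b.coeff 1).re| ≤ e →
  |∑ w ∈ b.coeff.support.erase 1, (b.coeff w).re * ((dv L w : ℝ) - 1)| ≤ e →
  ∀ N : ℕ, 8 * (2 * L + 1) ^ 2 ≤ N →
    |TT N b| ≤ 2 * (N * e + ((L : ℝ) ^ 2 + 2) * e + 1024 * (2 * (L : ℝ) + 1) ^ 8 * H / N)

/-- `q D₀ s + 1` -/
def nuL (q D₀ s : ℕ) : ℕ := q * (D₀ * s) + 1

/-- `L (D₀ s + 1)³ B³ 64^(-s)` -/
noncomputable def nuE (q D₀ B s : ℕ) : ℝ :=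
  (nuL q D₀ s : ℝ) * (((D₀ * s : ℕ) : ℝ) + 1) ^ 3 * (B : ℝ) ^ 3 * (1 / 64) ^ s

/-- **Row NUA** (short-medium). `4^s ≤ N < 4^(s+1)` for `s = Nat.log 4 N`; `N e ≤ 4^(s+1) poly(s) 64^(-s)`,
`2^s / N ≤ 2^(-s)`. -/
def NUA_stmt : Prop := ∀ q D₀ B : ℕ,
  (∀ᶠ N : ℕ in atTop, 1 ≤ Nat.log 4 N ∧ 8 * (2 * nuL q D₀ (Nat.log 4 N) + 1) ^ 2 ≤ N) ∧
  Tendsto (fun N : ℕ => 2 * ((N : ℝ) * nuE q D₀ B (Nat.log 4 N) +
    ((nuL q D₀ (Nat.log 4 N) : ℝ) ^ 2 + 2) * nuE q D₀ B (Nat.log 4 N) +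
    1024 * (2 * (nuL q D₀ (Nat.log 4 N) : ℝ) + 1) ^ 8 * 2 ^ (Nat.log 4 N) / N)) atTop (nhds 0)

open Classical in
/-- pairs of permutations for which the norm of `a` on the vectors of sum zero is larger than `r` -/
noncomputable def bad (N : ℕ) (a : MonoidAlgebra ℂ F2) (r : ℝ) : Finset (Fin 2 → Equiv.Perm (Fin N)) :=
  Finset.univ.filter (fun σ => ∃ v : EuclideanSpace ℂ (Fin N), ∑ i, v i = 0 ∧
    r * ‖v‖ < ‖rep (permRep (FreeGroup.lift σ)) a v‖)

/-- **Row SCS** (medium), from RNB, BAL, TST, TRM, MUB, ASY, NUA. `q` with `supp a` in the ball of radius `q`,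
`K = max (∑ ‖a w‖) r`, `D₀` from TST for `ρ = regNorm a, r, K`; `s = Nat.log 4 N`, `h` of TST, `b = pev h a`,
`D = D₀ s`, `L = nuL q D₀ s`, `H = 2^s`, `e = nuE q D₀ |ball q| s` (bounds both numbers of MUB, `|ball q| ≥ 1`). The average of
`tau N b (lift σ)` over `σ` is `TT N b` (definitions). By TRM `0 ≤ TT N' b ≤ H N'` for all `N' ≥ L` and
`|bad N a r| / (N!)² ≤ TT N b`, which tends to zero by ASY and NUA. -/
def SCS_stmt : Prop := ∀ (a : MonoidAlgebra ℂ F2) (r δ : ℝ), adj a = a → regNorm a < r → 0 < δ →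
  ∀ᶠ N : ℕ in atTop, ((bad N a r).card : ℝ) ≤ δ * (N.factorial : ℝ) ^ 2

/-- **Row SCG** (short; **strong convergence of random permutations, Bordenave-Collins**), from RNB, ADJ, REP, SCS. If
`‖A v‖ > (regNorm a + ε) ‖v‖` then `v ≠ 0` and by REP `‖A* A v‖ ≥ ‖A v‖²/‖v‖ > (regNorm a + ε)² ‖v‖`, and
`regNorm (adj a * a) ≤ regNorm a ^ 2 < (regNorm a + ε)²`. Use SCS for `adj a * a`. -/
def SCG_stmt : Prop := ∀ (a : MonoidAlgebra ℂ F2) (ε δ : ℝ), 0 < ε → 0 < δ →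
  ∀ᶠ N : ℕ in atTop, ((bad N a (regNorm a + ε)).card : ℝ) ≤ δ * (N.factorial : ℝ) ^ 2

/-- **Row SCF** (short), from SCG. Union bound with `δ = 1/(2(|S|+1))`; there are `(N!)²` pairs. -/
def SCF_stmt : Prop := SC F2

/-! ### Group B: the surface group of genus two -/

/-- **Row HA1** (medium). Cancellation: `s = p c`, `t = c⁻¹ r` without cancellation, `c` maximal. Uniqueness: in a
product without cancellation the left factor is determined by the product and its length (a prefix of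
the reduced word). -/
def HA1_stmt : Prop :=
  (∀ s t : F2, ∃ p c r : F2, s = p * c ∧ t = c⁻¹ * r ∧ s.norm = p.norm + c.norm ∧
    t.norm = c.norm + r.norm ∧ (s * t).norm = p.norm + r.norm) ∧
  ∀ p c p' c' : F2, p * c = p' * c' → (p * c).norm = p.norm + c.norm →
    (p' * c').norm = p'.norm + c'.norm → p.norm = p'.norm → p = p' ∧ c = c'

/-- **Row HA2** (medium-long), from HA1. Split the sum according to `i = |c| ∈ {0, ..., k}` in HA1 (`c` depends on `s, t`).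
For fixed `i`: `s = p c`, `t = c⁻¹ r`, `s t = p r`, all without cancellation, `|p| = k - i`, `|c| = i`. The sum
over `(s,t)` becomes a sum over triples `(p, c, r)`; by Cauchy-Schwarz over `c` for fixed `(p, r)` and then over `(p, r)`
it is `≤ (∑_{p,r} (∑_c f(pc)²)(∑_c u(c⁻¹ r)²))^(1/2) (∑_{p,r} z(pr)²)^(1/2)`. Here `(p,c) ↦ pc`, `(c,r) ↦ c⁻¹ r` and
`(p,r) ↦ pr` are injective on the triples without cancellation with given `|p|`, `|c|` (HA1). So each `i` contributes at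
most `‖f‖ ‖u‖ Z`. (All sums are finite: restrict to `S`, `T`; or work with `ℝ≥0∞`-valued sums.) -/
def HA2_stmt : Prop := ∀ (f u z : F2 → ℝ) (S T : Finset F2) (k : ℕ) (Z : ℝ), (∀ x, 0 ≤ f x) →
  (∀ x, 0 ≤ u x) → (∀ x, 0 ≤ z x) → 0 ≤ Z → (∀ U : Finset F2, ∑ x ∈ U, z x ^ 2 ≤ Z ^ 2) →
  (∀ s ∈ S, s.norm = k) →
  ∑ s ∈ S, ∑ t ∈ T, f s * u t * z (s * t) ≤
    ((k : ℝ) + 1) * Real.sqrt (∑ s ∈ S, f s ^ 2) * Real.sqrt (∑ t ∈ T, u t ^ 2) * Z

/-- **Row HAA** (short-medium; Haagerup inequality), from RNB, HA2. `l2 (f * u)² = ∑_x conj((f*u)(x)) (f*u)(x) ≤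
∑_{s,t} |f(s)| |u(t)| |(f*u)(st)|`; split `s` by its length `k ≤ ℓ` and use HA2 with `z = |f*u|`, `Z = l2 (f*u)`:
`l2 (f*u)² ≤ ∑_{k ≤ ℓ} (k+1) l2 f * l2 u * l2 (f*u)`. -/
def HAA_stmt : Prop := ∀ (f : MonoidAlgebra ℂ F2) (ℓ : ℕ), (∀ s ∈ f.coeff.support, s.norm ≤ ℓ) →
  regNorm f ≤ ((ℓ : ℝ) + 1) ^ 2 * l2 f

/-- **Row TRN** (short), from RNB, ADJ, PUS, PWR, HAA. `b = (adj a * a)^(2^j)`. `push ψ b = (adj a' * a')^(2^j)` for
`a' = push ψ a`, so `regNorm a' ^ (2^(j+1)) ≤ regNorm (push ψ b) ≤ (ℓ+1)² l2 (push ψ b) = (ℓ+1)² l2 b`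
`≤ (ℓ+1)² regNorm b ≤ (ℓ+1)² regNorm a ^ (2^(j+1))`. -/
def TRN_stmt : Prop := ∀ (G : Type) [Group G] (ψ : G →* F2) (a : MonoidAlgebra ℂ G) (j ℓ : ℕ),
  Set.InjOn ψ (((adj a * a) ^ (2 ^ j)).coeff.support : Set G) →
  (∀ γ ∈ ((adj a * a) ^ (2 ^ j)).coeff.support, (ψ γ).norm ≤ ℓ) →
  regNorm (push ψ a) ^ (2 ^ (j + 1)) ≤ ((ℓ : ℝ) + 1) ^ 2 * regNorm a ^ (2 ^ (j + 1))

/-- **Row KLM** (medium-long). `w₀ = a b a⁻¹ b⁻¹` has the four letters as its letters, each once. Let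
`W : ℤ → Ltr` be its periodic extension (`W i = W j ↔ 4 ∣ i - j`, `W (i+2) = linv (W i)`) and `p : ℤ → F2`,
`p 0 = 1`, `p (i+1) = p i * (W i)`, so `p (4j) = w₀^j` and `p (i+4) = w₀ * p i`. Among all `(i, j, z)` with
`y = p i * z * (p j)⁻¹` and `|i| + |j| + |z| ≤ |y|` (for instance `(0, 0, y)`) choose one with `|z|` minimal. If `z ≠ 1` its
first letter is not `W i` (otherwise `z = (W i) z'`, use `(i+1, j, z')`) and not `linv (W (i-1))`
(otherwise use `i - 1`), and in the same way the first letter of `z⁻¹` is not `W j` and not `linv (W (j-1))`. If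
`z = 1` then `4 ∤ i - j` since `y` is not a power of `w₀`. Now `w₀^h y w₀^{-h} = p (4h+i) z (p (4h+j))⁻¹` with
`4h + i ≥ 1`, `4h + j ≥ 1`. The reduced word of `p m`, `m ≥ 1`, is `W 0, ..., W (m-1)`; hence the word
`W 0 ... W (4h+i-1) · z · linv (W (4h+j-1)) ... linv (W 0)` is reduced (for `z = 1` because
`W (4h+i-1) ≠ W (4h+j-1)`), it begins with `W 0 = a` and ends with `a⁻¹`. In the same way for
`w₀^{-h} y w₀^h = p (i-4h) z (p (j-4h))⁻¹`, the reduced word of `p (-m)` is `linv (W (-1)), ..., linv (W (-m))`; it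
begins with `linv (W (-1)) = b` and ends with `b⁻¹`. (The words have length `≥ 2`.) -/
def KLM_stmt : Prop := ∀ (y : F2) (h : ℕ), y ∉ Subgroup.zpowers w0 → y.norm < 4 * h →
  ((cw h true y).toWord.head? = some (0, true) ∧ (cw h true y).toWord.getLast? = some (0, false)) ∧
  ((cw h false y).toWord.head? = some (1, true) ∧ (cw h false y).toWord.getLast? = some (1, false))

/-- **Row ALT** (short-medium), from KLM. By induction from the left: the reduced word of the product is the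
concatenation of the reduced words, it ends with `(0,false)` resp. `(1,false)` according to the last sign; the next
factor has the other sign and begins with `(1,true)` resp. `(0,true)`, so there is no cancellation. -/
def ALT_stmt : Prop := ∀ (h : ℕ) (l : List (Bool × F2)), l ≠ [] →
  List.IsChain (fun s t => s.1 ≠ t.1) l → (∀ s ∈ l, s.2 ∉ Subgroup.zpowers w0) →
  (∀ s ∈ l, s.2.norm < 4 * h) → (l.map (fun s => cw h s.1 s.2)).prod ≠ 1

/-- **Row RED** (medium). Induction on `l`. Let `l'` be the list for the tail and add `(ε, y)` in front. (`l' = []`) clear.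
(`l' = [(ε', y')]`) if `ε = ε'` merge; otherwise if one of `y, y'` is a power of `w₀` change its sign (`j false w₀^k =
j true w₀^k`) and merge; otherwise keep both. (`l' = (ε',y') :: (!ε',y'') :: m`) if `ε = ε'`: `z = y y'`; if `z` is not a
power of `w₀` take `(ε,z) :: (!ε',y'') :: m`, otherwise change its sign and merge with the next:
`(!ε', z y'') :: m`, where `z y''` is not a power of `w₀`; if `ε ≠ ε'`: if `y` is a power of `w₀` take
`(ε', y y') :: ...`, otherwise `(ε,y) :: l'`. The sum of the norms does not grow (`norm_mul_le`). -/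
def RED_stmt : Prop := ∀ (G : Type) [Group G] (j : Bool → F2 →* G), j false w0 = j true w0 →
  ∀ l : List (Bool × F2), ∃ l' : List (Bool × F2),
    (l'.map (fun s => j s.1 s.2)).prod = (l.map (fun s => j s.1 s.2)).prod ∧
    (l'.map (fun s => s.2.norm)).sum ≤ (l.map (fun s => s.2.norm)).sum ∧
    (l'.length ≤ 1 ∨ (List.IsChain (fun s t => s.1 ≠ t.1) l' ∧ ∀ s ∈ l', s.2 ∉ Subgroup.zpowers w0))

/-- **Row INJ** (short), from ALT, RED. `ψ (j s y) = cw h s y`. Replace `l` by `l'` of RED. Length `0`: trivial; length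
`1`: `cw h s y = 1` gives `y = 1`; otherwise ALT contradicts `ψ (...) = 1`. -/
def INJ_stmt : Prop := ∀ (G : Type) [Group G] (j : Bool → F2 →* G) (ψ : G →* F2) (h : ℕ),
  j false w0 = j true w0 → (∀ s y, ψ (j s y) = cw h s y) →
  ∀ l : List (Bool × F2), (l.map (fun s => s.2.norm)).sum < 4 * h →
    ψ (l.map (fun s => j s.1 s.2)).prod = 1 → (l.map (fun s => j s.1 s.2)).prod = 1

/-- **Row NUM** (short-medium). `ℓ = (8(2^j q + 1) + 1) 2^(j+1) q`; `((ℓ+1)²)^(1/2^(j+1)) → 1`. If `R = 0` then `x = 0`. -/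
def NUM_stmt : Prop := ∀ (q : ℕ) (R ε : ℝ), 0 ≤ R → 0 < ε → ∀ᶠ j : ℕ in atTop, ∀ x : ℝ, 0 ≤ x →
  x ^ (2 ^ (j + 1)) ≤ ((((8 * (2 ^ j * q + 1) + 1) * (2 ^ (j + 1) * q) : ℕ) : ℝ) + 1) ^ 2 *
    R ^ (2 ^ (j + 1)) → x ≤ R + ε

/-- **Row DBL** (medium), from PUS, TRN, INJ, NUM. Say `len γ ≤ n` if `γ = (l.map (fun s => j s.1 s.2)).prod` with
`(l.map (fun s => s.2.norm)).sum ≤ n`. Then `len (γδ) ≤ len γ + len δ`, `len γ⁻¹ ≤ len γ`, every `γ` has some finite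
length (closure), and `|ψ h γ| ≤ (8h+1) n` if `len γ ≤ n` (a factor with `y = 1` is trivial, otherwise
`|cw h s y| ≤ 8h + |y| ≤ (8h+1)|y|`). Given `S`, `ε`, let `q` bound the lengths of all elements of the supports.
Choose `i` (for the `j` of TRN, NUM) with NUM for all `a ∈ S` (`R = regNorm a`, `ε/2`), `h = 2^i q + 1`. The elements of the
support of `b = (adj a * a)^(2^i)` have length `≤ 2^(i+1) q`; if `ψ h γ = ψ h γ'` then `γ⁻¹ γ'` has length
`≤ 2^(i+2) q < 4h`, so `γ = γ'` by INJ. TRN and NUM: `regNorm (push (ψ h) a) ≤ regNorm a + ε/2` for `a ∈ S`. Apply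
`SC F2` to the set of all `push (ψ h) a` with `ε/2` and compose with `ψ h` (PUS). -/
def DBL_stmt : Prop := ∀ (G : Type) [Group G] (j : Bool → F2 →* G) (ψ : ℕ → G →* F2),
  j false w0 = j true w0 → (∀ h s y, ψ h (j s y) = cw h s y) →
  Subgroup.closure (Set.range (j false) ∪ Set.range (j true)) = ⊤ → SC F2 → SC G

/-- **Row SG2** (short-medium). `j false : a ↦ a₁, b ↦ b₁`, `j true : a ↦ b₂, b ↦ a₂` (`a_i = (i,false)`,
`b_i = (i,true)`, `a = of 0`, `b = of 1`): `j true w₀ = [b₂, a₂] = [a₂, b₂]⁻¹ = [a₁, b₁] = j false w₀` by the relation.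
`ψ h : a₁ ↦ cw h false a, b₁ ↦ cw h false b, a₂ ↦ cw h true b, b₂ ↦ cw h true a` respects the relation:
`[a₁,b₁] ↦ cw h false w₀ = w₀`, `[a₂,b₂] ↦ cw h true w₀⁻¹ = w₀⁻¹`. Check `ψ h (j s y) = cw h s y` on generators. -/
def SG2_stmt : Prop := ∃ (j : Bool → F2 →* SurfGrp 2) (ψ : ℕ → SurfGrp 2 →* F2),
  j false w0 = j true w0 ∧ (∀ h s y, ψ h (j s y) = cw h s y) ∧
  Subgroup.closure (Set.range (j false) ∪ Set.range (j true)) = ⊤

/-- **Row SGE** (medium-long; finite covers of the surface of genus two). `n = g - 1`. In `SurfGrp 2` write `a = a₀`,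
`b = b₀`, `c = a₁`, `d = b₁` (`a_i = (i,false)`, ...), `w_i = a^i [a,b] a^{-i}`; the relation says `[c,d] = w_0⁻¹`.
`Θ : SurfGrp g → SurfGrp 2`, `a_0 ↦ a^n`, `b_0 ↦ b`, `a_{i+1} ↦ a^i c a^{-i}`, `b_{i+1} ↦ a^i d a^{-i}` (`0 ≤ i < n`); it is well
defined: `[a^n, b] = w_{n-1} ⋯ w_0` and `∏_{i<n} a^i [c,d] a^{-i} = w_0⁻¹ ⋯ w_{n-1}⁻¹`. Injectivity: let `Γ = SurfGrp g`
and let `SurfGrp 2` act on the set `Fin n × Γ` (elements `t^j γ` of a cyclic extension with `t^n = a_0`) by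
`a · (j, γ) = (j+1, γ)` for `j + 1 < n`, `a · (n-1, γ) = (0, a_0 γ)`; `c · (j, γ) = (j, c_j γ)`, `d` in the same way with `d_j`,
`b · (j, γ) = (j, β_j γ)`, where `c_0 = a_1`, `d_0 = b_1`, and for `1 ≤ j < n` `c_j = a_0⁻¹ a_{n-j+1} a_0`,
`d_j = a_0⁻¹ b_{n-j+1} a_0`; with `v_i = [a_{i+1}, b_{i+1}]⁻¹` (the element `w_i`)
`β_0 = b_0` and `β_j = a_0⁻¹ (v_{n-j}⁻¹ v_{n-j+1}⁻¹ ⋯ v_{n-1}⁻¹) a_0 b_0`. The relation `a b a⁻¹ b⁻¹ c d c⁻¹ d⁻¹ = 1` acts
trivially: on the fibre `j ≥ 1`, `a b a⁻¹ b⁻¹` acts by `β_{j-1} β_j⁻¹` and `β_{j-1} β_j⁻¹ = a_0⁻¹ v_{n-j} a_0 = [c_j, d_j]⁻¹`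
(check: `β_j β_{j-1}⁻¹ = a_0⁻¹ v_{n-j}⁻¹ a_0`); on the fibre `0` it acts by
`a_0 β_{n-1} a_0⁻¹ β_0⁻¹ = (v_1⁻¹ ⋯ v_{n-1}⁻¹) a_0 b_0 a_0⁻¹ b_0⁻¹`, which equals `v_0 = [c_0,d_0]⁻¹` by the relation of `Γ`
(`[a_0,b_0] v_0⁻¹ v_1⁻¹ ⋯ v_{n-1}⁻¹ = 1`, conjugate cyclically). All maps commute with right multiplication by
`Γ`. On `(0, γ)`: `Θ(a_0) = a^n` gives `(0, a_0 γ)`, `Θ(b_0) = b` gives `(0, b_0 γ)`, `Θ(a_{i+1}) = a^i c a^{-i}` gives
`(0, a_{i+1} γ)` (for `i ≥ 1`: `a^{-i}` moves `(0,γ)` to `(n-i, a_0⁻¹ γ)`). So `Θ(x)` acts on `(0, γ)` as `(0, x γ)` and `Θ` is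
injective. (`n = 1`, i.e. `g = 2`: take the identity.) -/
def SGE_stmt : Prop := ∀ g : ℕ, 2 ≤ g → ∃ Θ : SurfGrp g →* SurfGrp 2, Function.Injective Θ

/-! ### Group C: the diagonal sequence -/

/-- **Row TRA** (medium), from RNB, PUS, REP, SUB, HAA. For `k = 20` let `f ∈ ℂ[F2]` be the sum of the `2^k` positive
words of length `k` (`t : Fin k → Fin 2`, `mk (ofFn (fun i => (t i, true)))`, distinct elements of norm `k`). By HAA
`regNorm f ≤ 21² * 2^10 < 2^20 = ∑ f`. `a = push s f`: `regNorm a ≤ regNorm f` (SUB), coefficients `≥ 0` with sum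
`2^20`; `ε = (2^20 - 21² * 2^10)/2`. If `σ` is not transitive (and `N ≥ 1`) let `O` be an orbit and
`v = 1_O - |O|/N`, a nonzero vector of sum zero fixed by all `σ γ`, so `rep a v = 2^20 v`, a contradiction. -/
def TRA_stmt : Prop := ∀ (G : Type) [Group G] (s : F2 →* G), Function.Injective s →
  ∃ (a : MonoidAlgebra ℂ G) (ε : ℝ), 0 < ε ∧ ∀ (N : ℕ) (σ : G →* Equiv.Perm (Fin N)),
    (∀ v : EuclideanSpace ℂ (Fin N), ∑ i, v i = 0 → ‖rep (permRep σ) a v‖ ≤ (regNorm a + ε) * ‖v‖) →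
    ∀ i j, ∃ γ, σ γ i = j

/-- **Row SGF** (short-medium). `r : SurfGrp g → F2`, `a_0 ↦ a`, `b_0 ↦ b`, `a_1 ↦ b`, `b_1 ↦ a`, the others to `1`
(relation: `[a,b][b,a] = 1`); `s : F2 → SurfGrp g`, `a ↦ a_0`, `b ↦ b_0`, `r ∘ s = id`. For the second clause send
`F2` to the powers of the cycle `finRotate N` by `a ↦ finRotate N`, `b ↦ 1` and compose with `r`. -/
def SGF_stmt : Prop := ∀ g : ℕ, 2 ≤ g → (∃ s : F2 →* SurfGrp g, Function.Injective s) ∧
  ∀ N : ℕ, ∃ σ : SurfGrp g →* Equiv.Perm (Fin N), ∀ i j, ∃ γ, σ γ i = j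

/-- **Row DIA** (medium), from RNB, REP. The elements of `ℂ[G]` with coefficients in `ℚ + iℚ` are countable and every `a` can be
approximated by them with `∑ ‖a γ - a' γ‖ ≤ δ`. Let `(a_k)` enumerate them and the given `a`. For every `k` there is
`N_k` (increasing) such that for `N ≥ N_k` some `σ` works for `a_0, ..., a_k` and `1/(k+1)`. For
`N_k ≤ N < N_{k+1}` choose such a `σ_N`. Then `StrongLimPerm` by REP (`‖rep a v - rep a' v‖ ≤ δ ‖v‖`) and RNB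
(`regNorm a' ≤ regNorm a + δ`). For large `N` the second hypothesis makes `σ_N` transitive, for the others replace it by the
`σ` of the third. -/
def DIA_stmt : Prop := ∀ (G : Type) [Group G] [Countable G], SC G →
  (∃ (a : MonoidAlgebra ℂ G) (ε : ℝ), 0 < ε ∧ ∀ (N : ℕ) (σ : G →* Equiv.Perm (Fin N)),
    (∀ v : EuclideanSpace ℂ (Fin N), ∑ i, v i = 0 → ‖rep (permRep σ) a v‖ ≤ (regNorm a + ε) * ‖v‖) →
    ∀ i j, ∃ γ, σ γ i = j) →
  (∀ N : ℕ, ∃ σ : G →* Equiv.Perm (Fin N), ∀ i j, ∃ γ, σ γ i = j) →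
  ∃ σ : ∀ n : ℕ, G →* Equiv.Perm (Fin n), StrongLimPerm (fun n => n) σ ∧ ∀ n i j, ∃ γ, σ n γ i = j

end Pool.Agent.RP
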