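import Pool.Agent.helper62.QU.HDefs

set_option autoImplicit false

/-!
# Strong convergence of random permutation representations, surface groups: definitions
-/

open Polynomial Filter
open Pool.Agent.QU

namespace Pool.Agent.RP

/-- the free group on two generators -/
abbrev F2 : Type := FreeGroup (Fin 2)

/-- letters: `(x, true)` is the generator `x`, `(x, false)` its inverse -/
abbrev Ltr : Type := Fin 2 × Bool

/-- the inverse letter -/
def linv (l : Ltr) : Ltr := (l.1, !l.2)

/-- the ball of radius `q` -/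
def ball (q : ℕ) : Finset F2 :=
  (Finset.univ : Finset ((k : Fin (q + 1)) × (Fin k → Ltr))).image
    (fun v => FreeGroup.mk (List.ofFn v.2))

/-- `‖f‖₂ ≤ |c|` -/
def SqB {G : Type} (f : G → ℂ) (c : ℝ) : Prop := ∀ S : Finset G, ∑ x ∈ S, ‖f x‖ ^ 2 ≤ c ^ 2

section algebra

variable {G H : Type} [Group G] [Group H]

/-- the adjoint `a*(γ) = conj a(γ⁻¹)` -/
noncomputable def adj (a : MonoidAlgebra ℂ G) : MonoidAlgebra ℂ G :=
  ∑ γ ∈ a.coeff.support, MonoidAlgebra.single γ⁻¹ (star (a.coeff γ))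

/-- the image of `a` under a homomorphism of groups -/
noncomputable def push (f : G →* H) (a : MonoidAlgebra ℂ G) : MonoidAlgebra ℂ H :=
  ∑ γ ∈ a.coeff.support, MonoidAlgebra.single (f γ) (a.coeff γ)

/-- `h(a)` for a real polynomial `h` -/
noncomputable def pev (h : ℝ[X]) (a : MonoidAlgebra ℂ G) : MonoidAlgebra ℂ G :=
  ∑ i ∈ Finset.range (h.natDegree + 1), ((h.coeff i : ℝ) : ℂ) • a ^ i

/-- finitely many elements of the group algebra can be handled at the same time by a permutation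
representation of any large degree -/
def SC (G : Type) [Group G] : Prop :=
  ∀ (S : Finset (MonoidAlgebra ℂ G)) (ε : ℝ), 0 < ε → ∀ᶠ N : ℕ in atTop,
    ∃ σ : G →* Equiv.Perm (Fin N), ∀ a ∈ S, ∀ v : EuclideanSpace ℂ (Fin N), ∑ i, v i = 0 →
      ‖rep (permRep σ) a v‖ ≤ (regNorm a + ε) * ‖v‖

end algebra

/-- `∑ |h_i| ρ^i` -/
noncomputable def maj (h : ℝ[X]) (ρ : ℝ) : ℝ :=
  ∑ i ∈ Finset.range (h.natDegree + 1), |h.coeff i| * ρ ^ i

/-- `1` lies on the geodesic from `x` to `y` in the tree -/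
def Sep (x y : F2) : Prop := x = 1 ∨ y = 1 ∨ x.toWord.head? ≠ y.toWord.head?

/-- sum over the paths of length `i` from `x` to `s` which enter the ball of radius `q` only at their end -/
noncomputable def kil (a : MonoidAlgebra ℂ F2) (q : ℕ) (s : F2) : ℕ → F2 → ℂ
  | 0, x => if x = s then 1 else 0
  | i + 1, x => if x.norm ≤ q then 0 else ∑ t ∈ a.coeff.support, a.coeff t * kil a q s i (x * t)

/-- number of fixed points -/
def fx {N : ℕ} (π : Equiv.Perm (Fin N)) : ℕ := (Finset.univ.filter (fun i => π i = i)).card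

/-- expected number of fixed points of `w(σ₀, σ₁)` -/
noncomputable def Ew (N : ℕ) (w : F2) : ℝ :=
  (∑ σ : Fin 2 → Equiv.Perm (Fin N), (fx (FreeGroup.lift σ w) : ℝ)) / (N.factorial : ℝ) ^ 2

/-- `∏_{j<ℓ} (1 - j x)²` -/
noncomputable def gl (ℓ : ℕ) : ℝ[X] := ∏ j ∈ Finset.range ℓ, (1 - C (j : ℝ) * X) ^ 2

open Classical in
/-- number of `k ∈ [1, ℓ]` such that `w` is a `k`-th power -/
noncomputable def dv (ℓ : ℕ) (w : F2) : ℕ :=
  ((Finset.Icc 1 ℓ).filter (fun k => ∃ v : F2, v ^ k = w)).card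

/-- `∑_w Re b_w (fix(σ(w)) - 1)` -/
noncomputable def tau (N : ℕ) (b : MonoidAlgebra ℂ F2) (σ : F2 →* Equiv.Perm (Fin N)) : ℝ :=
  ∑ w ∈ b.coeff.support, (b.coeff w).re * ((fx (σ w) : ℝ) - 1)

/-- `∑_w Re b_w (E fix(w) - 1)` -/
noncomputable def TT (N : ℕ) (b : MonoidAlgebra ℂ F2) : ℝ :=
  ∑ w ∈ b.coeff.support, (b.coeff w).re * (Ew N w - 1)

section words

variable {n : ℕ} [NeZero n] {β : Type} [DecidableEq β]

/-- cyclically reduced -/
def CR (w : Fin n → Ltr) : Prop := ∀ i, w i ≠ linv (w (i + 1))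

/-- the permutation of a letter -/
def sg {N : ℕ} (σ : Fin 2 → Equiv.Perm (Fin N)) (l : Ltr) : Equiv.Perm (Fin N) :=
  if l.2 then σ l.1 else (σ l.1)⁻¹

/-- the edge `(x, p, q)`, to be read as `σ_x p = q`, of the closed path `t` at step `i` -/
def pr (w : Fin n → Ltr) (t : Fin n → β) (i : Fin n) : Fin 2 × β × β :=
  if (w i).2 then ((w i).1, t (i + 1), t i) else ((w i).1, t i, t (i + 1))

/-- the set of edges of the closed path -/
def edg (w : Fin n → Ltr) (t : Fin n → β) : Finset (Fin 2 × β × β) := Finset.univ.image (pr w t)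

/-- number of edges with label `x` -/
def nex (w : Fin n → Ltr) (t : Fin n → β) (x : Fin 2) : ℕ :=
  ((edg w t).filter (fun e => e.1 = x)).card

/-- number of vertices -/
def nv (t : Fin n → β) : ℕ := (Finset.univ.image t).card

/-- the edges of each label form a partial injection -/
def Con (w : Fin n → Ltr) (t : Fin n → β) : Prop :=
  ∀ i j, (pr w t i).1 = (pr w t j).1 →
    ((pr w t i).2.1 = (pr w t j).2.1 ↔ (pr w t i).2.2 = (pr w t j).2.2)

instance (w : Fin n → Ltr) (t : Fin n → β) : Decidable (Con w t) := by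
  unfold Con; infer_instance

/-- `c` maps every `i` to the smallest element of its class, for a partition of `Fin n` -/
def Can {n : ℕ} (c : Fin n → Fin n) : Prop := ∀ i, c i ≤ i ∧ c (c i) = c i

instance {n : ℕ} (c : Fin n → Fin n) : Decidable (Can c) := by
  unfold Can; infer_instance

/-- the partition `c` is invariant under the rotation and `w` is constant on its classes -/
def Rot (w : Fin n → Ltr) (c : Fin n → Fin n) : Prop :=
  ∀ i j, c i = c j → w i = w j ∧ c (i + 1) = c (j + 1)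

instance (w : Fin n → Ltr) (c : Fin n → Fin n) : Decidable (Rot w c) := by
  unfold Rot; infer_instance

end words

/-- the commutator of the generators -/
def w0 : F2 := FreeGroup.of 0 * FreeGroup.of 1 * (FreeGroup.of 0)⁻¹ * (FreeGroup.of 1)⁻¹

/-- `y ↦ w₀^h y w₀^{-h}` for `true`, `y ↦ w₀^{-h} y w₀^h` for `false` -/
def cw (h : ℕ) (s : Bool) (y : F2) : F2 :=
  if s then w0 ^ h * y * (w0 ^ h)⁻¹ else (w0 ^ h)⁻¹ * y * w0 ^ h

/-- the relation `[a₁, b₁] ⋯ [a_g, b_g]`, `a_i = (i, false)`, `b_i = (i, true)` -/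
def surfRel (g : ℕ) : FreeGroup (Fin g × Bool) :=
  (List.ofFn (fun i : Fin g => FreeGroup.of (i, false) * FreeGroup.of (i, true) *
    (FreeGroup.of (i, false))⁻¹ * (FreeGroup.of (i, true))⁻¹)).prod

/-- the fundamental group of the closed orientable surface of genus `g` -/
abbrev SurfGrp (g : ℕ) : Type := PresentedGroup {surfRel g}

end Pool.Agent.RP
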